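import Mathlib

set_option autoImplicit false

/-!
An automaton computing (up to a cap `c`) the Hamming distance of a binary word to the words with
at most two changes, and the number of accepted words of a given length.
-/

namespace Pool.Agent.Work.MP_463270_co_h24

/-- distance of `w` to `f` on the first `m` positions -/
def dst (w f : ℕ → Bool) (m : ℕ) : ℕ := ((Finset.range m).filter fun e => w e ≠ f e).card

theorem dst_succ (w f : ℕ → Bool) (m : ℕ) :
    dst w f (m + 1) = dst w f m + (if w m ≠ f m then 1 else 0) := by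
  unfold dst
  rw [Finset.range_add_one, Finset.filter_insert]
  by_cases h : w m ≠ f m
  · rw [if_pos h, if_pos h, Finset.card_insert_of_notMem (by simp)]
  · rw [if_neg h, if_neg h, add_zero]

theorem dst_congr {w f g : ℕ → Bool} {m : ℕ} (h : ∀ e < m, f e = g e) : dst w f m = dst w g m := by
  unfold dst
  congr 1
  refine Finset.filter_congr fun e he => ?_
  rw [h e (Finset.mem_range.1 he)]

/-- the word `c^a (not c)^(b-a) c^...` -/
def pat (c : Bool) (a b e : ℕ) : Bool := if e < a then c else if e < b then !c else c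

/-- costs of the three phases for the patterns starting with a fixed letter -/
structure Sd where
  v0 : ℕ
  v1 : ℕ
  v2 : ℕ
deriving DecidableEq

/-- reading a letter: `q` tells whether the letter is the starting letter of the patterns -/
def Sd.step (c : ℕ) (s : Sd) (q : Bool) : Sd :=
  match q with
  | true =>
    ⟨s.v0, min c (min s.v0 (s.v1 + 1)), min c (min (min s.v0 (s.v1 + 1)) s.v2)⟩
  | false =>
    ⟨min c (s.v0 + 1), min c (min (s.v0 + 1) s.v1),
      min c (min (min (s.v0 + 1) s.v1) (s.v2 + 1))⟩

/-- invariant of one side of the state after reading `m` letters of `w` -/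
def Sd.Inv (c : ℕ) (w : ℕ → Bool) (m : ℕ) (l : Bool) (s : Sd) : Prop :=
  (s.v0 < c → dst w (fun _ => l) m ≤ s.v0) ∧
  (s.v1 < c → ∃ a ≤ m, dst w (pat l a m) m ≤ s.v1) ∧
  (s.v2 < c → ∃ a b, a ≤ b ∧ b ≤ m ∧ dst w (pat l a b) m ≤ s.v2)

theorem pat_full (l : Bool) (m b : ℕ) : ∀ e < m, pat l m b e = l := by
  intro e he
  simp [pat, he]

theorem Sd.Inv.step {c : ℕ} {w : ℕ → Bool} {m : ℕ} {l : Bool} {s : Sd} (h : Sd.Inv c w m l s) :
    Sd.Inv c w (m + 1) l (s.step c (w m == l)) := by
  obtain ⟨h0, h1, h2⟩ := h
  -- the new exact costs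
  have k0 : ∀ v, (s.v0 < c → v = s.v0 + (if w m ≠ l then 1 else 0)) → s.v0 < c →
      dst w (fun _ => l) (m + 1) ≤ v := by
    intro v hv hc
    rw [dst_succ, hv hc]
    exact Nat.add_le_add_right (h0 hc) _
  have e0 : s.v0 < c → dst w (fun _ => l) (m + 1) ≤ s.v0 + (if w m ≠ l then 1 else 0) := by
    intro hc
    rw [dst_succ]
    exact Nat.add_le_add_right (h0 hc) _
  have e1 : s.v1 < c → ∃ a ≤ m + 1, dst w (pat l a (m + 1)) (m + 1) ≤
      s.v1 + (if w m = l then 1 else 0) := by
    intro hc
    obtain ⟨a, ha, hd⟩ := h1 hc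
    refine ⟨a, by omega, ?_⟩
    rw [dst_succ]
    have h3 : dst w (pat l a (m + 1)) m = dst w (pat l a m) m := by
      refine dst_congr fun e he => ?_
      simp only [pat]
      by_cases h4 : e < a
      · simp [h4]
      · simp [h4, he, Nat.lt_succ_of_lt he]
    have h5 : pat l a (m + 1) m = !l := by
      simp only [pat]
      rw [if_neg (by omega), if_pos (by omega)]
    rw [h3, h5]
    refine Nat.add_le_add hd ?_
    cases hw : w m <;> cases l <;> simp
  have e0' : s.v0 < c → ∃ a ≤ m + 1, dst w (pat l a (m + 1)) (m + 1) ≤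
      s.v0 + (if w m ≠ l then 1 else 0) := by
    intro hc
    refine ⟨m + 1, le_rfl, ?_⟩
    rw [dst_congr (g := fun _ => l) (fun e he => pat_full l (m + 1) (m + 1) e he)]
    exact e0 hc
  have e2 : s.v2 < c → ∃ a b, a ≤ b ∧ b ≤ m + 1 ∧ dst w (pat l a b) (m + 1) ≤
      s.v2 + (if w m ≠ l then 1 else 0) := by
    intro hc
    obtain ⟨a, b, hab, hb, hd⟩ := h2 hc
    refine ⟨a, b, hab, by omega, ?_⟩
    rw [dst_succ]
    have h5 : pat l a b m = l := by
      simp only [pat]
      rw [if_neg (by omega), if_neg (by omega)]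
    rw [h5]
    exact Nat.add_le_add_right hd _
  cases hw : (w m == l)
  · have hne : w m ≠ l := by
      intro h; rw [h] at hw; simp at hw
    simp only [ne_eq, hne, not_false_eq_true, if_true, if_false, add_zero] at e0 e1 e0' e2
    refine ⟨?_, ?_, ?_⟩
    · simp only [Sd.step]
      intro hc
      have : s.v0 + 1 < c := by omega
      exact (e0 (by omega)).trans (by omega)
    · simp only [Sd.step]
      intro hc
      rcases le_total (s.v0 + 1) s.v1 with h | h
      · obtain ⟨a, ha, hd⟩ := e0' (by omega)
        exact ⟨a, ha, hd.trans (by omega)⟩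
      · obtain ⟨a, ha, hd⟩ := e1 (by omega)
        exact ⟨a, ha, hd.trans (by omega)⟩
    · simp only [Sd.step]
      intro hc
      rcases le_total (min (s.v0 + 1) s.v1) (s.v2 + 1) with h | h
      · rcases le_total (s.v0 + 1) s.v1 with h' | h'
        · obtain ⟨a, ha, hd⟩ := e0' (by omega)
          exact ⟨a, m + 1, ha, le_rfl, hd.trans (by omega)⟩
        · obtain ⟨a, ha, hd⟩ := e1 (by omega)
          exact ⟨a, m + 1, ha, le_rfl, hd.trans (by omega)⟩
      · obtain ⟨a, b, hab, hb, hd⟩ := e2 (by omega)
        exact ⟨a, b, hab, hb, hd.trans (by omega)⟩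
  · have heq : w m = l := by simpa using hw
    simp only [heq, ne_eq, not_true_eq_false, if_true, if_false, add_zero] at e0 e1 e0' e2
    refine ⟨?_, ?_, ?_⟩
    · simp only [Sd.step]
      intro hc
      exact e0 hc
    · simp only [Sd.step]
      intro hc
      rcases le_total s.v0 (s.v1 + 1) with h | h
      · obtain ⟨a, ha, hd⟩ := e0' (by omega)
        exact ⟨a, ha, hd.trans (by omega)⟩
      · obtain ⟨a, ha, hd⟩ := e1 (by omega)
        exact ⟨a, ha, hd.trans (by omega)⟩
    · simp only [Sd.step]
      intro hc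
      rcases le_total (min s.v0 (s.v1 + 1)) s.v2 with h | h
      · rcases le_total s.v0 (s.v1 + 1) with h' | h'
        · obtain ⟨a, ha, hd⟩ := e0' (by omega)
          exact ⟨a, m + 1, ha, le_rfl, hd.trans (by omega)⟩
        · obtain ⟨a, ha, hd⟩ := e1 (by omega)
          exact ⟨a, m + 1, ha, le_rfl, hd.trans (by omega)⟩
      · obtain ⟨a, b, hab, hb, hd⟩ := e2 (by omega)
        exact ⟨a, b, hab, hb, hd.trans (by omega)⟩

/-- one step of the automaton -/
def step (c : ℕ) (s : Sd × Sd) (x : Bool) : Sd × Sd := (s.1.step c (x == false), s.2.step c (x == true))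

/-- acceptance -/
def acc (c : ℕ) (s : Sd × Sd) : Bool := Nat.blt s.1.v2 c || Nat.blt s.2.v2 c

/-- the state after reading `m` letters of `w` -/
def run (c : ℕ) (w : ℕ → Bool) : ℕ → Sd × Sd
  | 0 => (⟨0, 0, 0⟩, ⟨0, 0, 0⟩)
  | m + 1 => step c (run c w m) (w m)

theorem run_inv (c : ℕ) (w : ℕ → Bool) (m : ℕ) :
    Sd.Inv c w m false (run c w m).1 ∧ Sd.Inv c w m true (run c w m).2 := by
  induction m with
  | zero =>
    have h : ∀ l, Sd.Inv c w 0 l ⟨0, 0, 0⟩ := by
      intro l
      refine ⟨?_, ?_, ?_⟩
      · intro _; simp [dst]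
      · intro _; exact ⟨0, le_rfl, by simp [dst]⟩
      · intro _; exact ⟨0, 0, le_rfl, le_rfl, by simp [dst]⟩
    exact ⟨h false, h true⟩
  | succ m ih =>
    exact ⟨ih.1.step, ih.2.step⟩

/-- accepted words are close to a word with at most two changes -/
theorem exists_pat_of_acc {k : ℕ} {w : ℕ → Bool} {m : ℕ} (h : acc (k + 1) (run (k + 1) w m) = true) :
    ∃ l a b, a ≤ b ∧ b ≤ m ∧ dst w (pat l a b) m ≤ k := by
  obtain ⟨h1, h2⟩ := run_inv (k + 1) w m
  rw [acc, Bool.or_eq_true, Nat.blt_eq, Nat.blt_eq] at h
  rcases h with h | h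
  · obtain ⟨a, b, hab, hb, hd⟩ := h1.2.2 h
    exact ⟨false, a, b, hab, hb, by omega⟩
  · obtain ⟨a, b, hab, hb, hd⟩ := h2.2.2 h
    exact ⟨true, a, b, hab, hb, by omega⟩

/-- number of accepted words of length `m` from the state `s` -/
def cnt (c : ℕ) : ℕ → Sd × Sd → ℕ
  | 0, s => if acc c s = true then 1 else 0
  | m + 1, s => cnt c m (step c s false) + cnt c m (step c s true)

/-- the state reached from `s` by reading a finite word -/
def runF (c : ℕ) : (m : ℕ) → (Fin m → Bool) → Sd × Sd → Sd × Sd
  | 0, _, s => s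
  | m + 1, u, s => runF c m (fun i => u i.succ) (step c s (u 0))

theorem card_runF (c : ℕ) : ∀ (m : ℕ) (s : Sd × Sd),
    (Finset.univ.filter fun u : Fin m → Bool => acc c (runF c m u s) = true).card = cnt c m s := by
  intro m
  induction m with
  | zero =>
    intro s
    rw [cnt]
    by_cases h : acc c s = true
    · rw [if_pos h]
      simp [runF, h]
    · rw [if_neg h]
      simp [runF, h]
  | succ m ih =>
    intro s
    rw [cnt, ← ih, ← ih]
    have key : ∀ x : Bool, (Finset.univ.filter fun u : Fin m → Bool =>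
        acc c (runF c m u (step c s x)) = true).card =
        (Finset.univ.filter fun u : Fin (m + 1) → Bool =>
          acc c (runF c (m + 1) u s) = true ∧ u 0 = x).card := by
      intro x
      refine Finset.card_bij (fun u _ => Fin.cons x u) ?_ ?_ ?_
      · intro u hu
        rw [Finset.mem_filter] at hu ⊢
        refine ⟨Finset.mem_univ _, ?_, by simp⟩
        rw [runF]
        simpa using hu.2
      · intro u _ v _ huv
        exact Fin.cons_right_injective (α := fun _ => Bool) x huv
      · intro u hu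
        rw [Finset.mem_filter] at hu
        refine ⟨fun i => u i.succ, ?_, ?_⟩
        · rw [Finset.mem_filter]
          refine ⟨Finset.mem_univ _, ?_⟩
          have h1 := hu.2.1
          rw [runF, hu.2.2] at h1
          exact h1
        · rw [← hu.2.2]
          exact Fin.cons_self_tail u
    rw [key, key]
    rw [← Finset.card_union_of_disjoint]
    · congr 1
      ext u
      simp only [Finset.mem_filter, Finset.mem_univ, true_and, Finset.mem_union]
      cases u 0 <;> simp
    · rw [Finset.disjoint_left]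
      intro u hu hv
      rw [Finset.mem_filter] at hu hv
      rw [hu.2.2] at hv
      exact absurd hv.2.2 (by decide)

theorem runF_eq_run (c : ℕ) (w : ℕ → Bool) : ∀ (m j : ℕ),
    runF c m (fun i => w (j + i.val)) (run c w j) = run c w (j + m) := by
  intro m
  induction m with
  | zero => intro j; rfl
  | succ m ih =>
    intro j
    rw [runF]
    have h := ih (j + 1)
    rw [run] at h
    rw [show j + (m + 1) = j + 1 + m by ring, ← h]
    congr 1
    funext i
    congr 1
    rw [Fin.val_succ]
    ring

end Pool.Agent.Work.MP_463270_co_h24
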