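import Mathlib

set_option autoImplicit false

/-!
Counting the sets within Hamming distance `k` of a list of sets (up to complements) through
canonical pairs (nearest set of the list, difference).
-/

namespace Pool.Agent.Work.MP_463270_co_h24

open scoped symmDiff

variable {α : Type*} [Fintype α] [DecidableEq α]

/-- `D` is a canonical difference at the index `i` of the list `L` (indices below `N`): no other
index `j` yields a smaller difference, or one of the same size with `j < i`. -/
def Good (L : ℕ → Finset α) (N i : ℕ) (D : Finset α) : Prop :=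
  ∀ j < N, ∀ B, (B = L i ∆ L j ∨ B = (L i ∆ L j)ᶜ) →
    ¬ (B.card < 2 * (D ∩ B).card ∨ (B.card = 2 * (D ∩ B).card ∧ j < i))

omit [Fintype α] in
theorem card_symmDiff_add (D B : Finset α) :
    (D ∆ B).card + 2 * (D ∩ B).card = D.card + B.card := by
  have h1 : (D ∆ B) = (D \ B) ∪ (B \ D) := rfl
  have h2 : Disjoint (D \ B) (B \ D) := by
    rw [Finset.disjoint_left]
    intro x hx hy
    rw [Finset.mem_sdiff] at hx hy
    exact hy.2 hx.1
  rw [h1, Finset.card_union_of_disjoint h2]
  have h3 := Finset.card_sdiff_add_card_inter D B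
  have h4 := Finset.card_sdiff_add_card_inter B D
  rw [Finset.inter_comm B D] at h4
  omega

theorem compl_symmDiff_left (A B : Finset α) : Aᶜ ∆ B = (A ∆ B)ᶜ := by
  ext x
  simp only [Finset.mem_symmDiff, Finset.mem_compl]
  by_cases h1 : x ∈ A <;> by_cases h2 : x ∈ B <;> simp [h1, h2]

/-- every set close to a set of the list (up to complement) has a canonical representation -/
theorem exists_good (L : ℕ → Finset α) (N k : ℕ) (A : Finset α)
    (h : ∃ i < N, ∃ D : Finset α, D.card ≤ k ∧ (A = L i ∆ D ∨ Aᶜ = L i ∆ D)) :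
    ∃ i < N, ∃ D : Finset α, D.card ≤ k ∧ Good L N i D ∧ (A = L i ∆ D ∨ Aᶜ = L i ∆ D) := by
  classical
  set S : Finset (ℕ × Finset α) := (Finset.range N ×ˢ Finset.univ).filter
    (fun p => p.2.card ≤ k ∧ (A = L p.1 ∆ p.2 ∨ Aᶜ = L p.1 ∆ p.2)) with hS
  have hne : S.Nonempty := by
    obtain ⟨i, hi, D, hD, hA⟩ := h
    exact ⟨(i, D), by simp [hS, hi, hD, hA]⟩
  obtain ⟨⟨i, D⟩, hmem, hmin⟩ := S.exists_min_image (fun p => p.2.card * N + p.1) hne
  rw [hS, Finset.mem_filter, Finset.mem_product, Finset.mem_range] at hmem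
  obtain ⟨⟨hi, _⟩, hD, hA⟩ := hmem
  simp only at hi hD hA hmin
  refine ⟨i, hi, D, hD, ?_, hA⟩
  intro j hj B hB hviol
  have hcard := card_symmDiff_add D B
  -- the new pair
  have hnew : A = L j ∆ (D ∆ B) ∨ Aᶜ = L j ∆ (D ∆ B) := by
    rcases hB with hB | hB
    · have h1 : L j ∆ (D ∆ B) = L i ∆ D := by
        rw [hB]
        ext x
        simp only [Finset.mem_symmDiff]
        by_cases h1 : x ∈ L i <;> by_cases h2 : x ∈ L j <;> by_cases h3 : x ∈ D <;>
          simp [h1, h2, h3]
      rw [h1]; exact hA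
    · have h1 : L j ∆ (D ∆ B) = (L i ∆ D)ᶜ := by
        rw [hB]
        ext x
        simp only [Finset.mem_symmDiff, Finset.mem_compl]
        by_cases h1 : x ∈ L i <;> by_cases h2 : x ∈ L j <;> by_cases h3 : x ∈ D <;>
          simp [h1, h2, h3]
      rw [h1]
      rcases hA with hA | hA
      · right; rw [hA]
      · left; rw [← hA, compl_compl]
  have hle : (D ∆ B).card ≤ D.card := by
    rcases hviol with h | ⟨h, _⟩ <;> omega
  have hmem' : (j, D ∆ B) ∈ S := by
    rw [hS, Finset.mem_filter, Finset.mem_product, Finset.mem_range]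
    exact ⟨⟨hj, Finset.mem_univ _⟩, hle.trans hD, hnew⟩
  have h2 := hmin _ hmem'
  simp only at h2
  rcases hviol with h | ⟨h, hji⟩
  · have h3 : (D ∆ B).card + 1 ≤ D.card := by omega
    have h4 : ((D ∆ B).card + 1) * N ≤ D.card * N := Nat.mul_le_mul_right _ h3
    rw [Nat.add_mul, Nat.one_mul] at h4
    omega
  · have h3 : (D ∆ B).card = D.card := by omega
    rw [h3] at h2
    omega

/-- the number of sets close to the list, up to complement, is bounded through canonical pairs -/
theorem card_le_canonical (L : ℕ → Finset α) (N k : ℕ) (bad : Finset (Finset α))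
    (h : ∀ A ∈ bad, ∃ i < N, ∃ D : Finset α, D.card ≤ k ∧ (A = L i ∆ D ∨ Aᶜ = L i ∆ D))
    (g : ℕ → ℕ)
    (hg : ∀ i < N, ∀ G : Finset (Finset α), (∀ D ∈ G, D.card ≤ k ∧ Good L N i D) → G.card ≤ g i) :
    bad.card ≤ 2 * ∑ i ∈ Finset.range N, g i := by
  classical
  set G : ℕ → Finset (Finset α) := fun i => Finset.univ.filter
    (fun D => D.card ≤ k ∧ Good L N i D) with hG
  have hsub : bad ⊆ (Finset.range N).biUnion
      (fun i => (G i).image (fun D => L i ∆ D) ∪ (G i).image (fun D => (L i ∆ D)ᶜ)) := by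
    intro A hA
    obtain ⟨i, hi, D, hD, hgood, hA'⟩ := exists_good L N k A (h A hA)
    rw [Finset.mem_biUnion]
    refine ⟨i, Finset.mem_range.2 hi, ?_⟩
    have hDG : D ∈ G i := by rw [hG]; simp [hD, hgood]
    rw [Finset.mem_union, Finset.mem_image, Finset.mem_image]
    rcases hA' with hA' | hA'
    · exact Or.inl ⟨D, hDG, hA'.symm⟩
    · exact Or.inr ⟨D, hDG, by rw [← hA', compl_compl]⟩
  refine (Finset.card_le_card hsub).trans (Finset.card_biUnion_le.trans ?_)
  rw [Finset.mul_sum]
  refine Finset.sum_le_sum fun i hi => ?_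
  refine (Finset.card_union_le _ _).trans ?_
  have h1 : (G i).card ≤ g i := by
    refine hg i (Finset.mem_range.1 hi) (G i) fun D hD => ?_
    rw [hG] at hD
    simpa using hD
  have h2 := Finset.card_image_le (s := G i) (f := fun D => L i ∆ D)
  have h3 := Finset.card_image_le (s := G i) (f := fun D => (L i ∆ D)ᶜ)
  omega

end Pool.Agent.Work.MP_463270_co_h24
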