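import Mathlib
import Pool.Agent.Work.MP_463270_co_h24.Cover

set_option autoImplicit false

/-!
Bit masks (natural numbers) as subsets of `Fin n`, and a recursive upper bound for the number of
small subsets satisfying `at most one element from each of the sets of a list`.
-/

namespace Pool.Agent.Work.MP_463270_co_h24

open scoped symmDiff

/-- the subset of `Fin n` encoded by the natural number `m` -/
def toSet (n m : ℕ) : Finset (Fin n) := Finset.univ.filter (fun e => m.testBit e.val = true)

theorem mem_toSet {n m : ℕ} {e : Fin n} : e ∈ toSet n m ↔ m.testBit e.val = true := by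
  simp [toSet]

theorem toSet_xor (n a b : ℕ) : toSet n (a ^^^ b) = toSet n a ∆ toSet n b := by
  ext e
  rw [mem_toSet, Finset.mem_symmDiff, mem_toSet, mem_toSet, Nat.testBit_xor]
  cases a.testBit e.val <;> cases b.testBit e.val <;> simp

theorem toSet_and (n a b : ℕ) : toSet n (a &&& b) = toSet n a ∩ toSet n b := by
  ext e
  rw [mem_toSet, Finset.mem_inter, mem_toSet, mem_toSet, Nat.testBit_and]
  cases a.testBit e.val <;> cases b.testBit e.val <;> simp

theorem toSet_or (n a b : ℕ) : toSet n (a ||| b) = toSet n a ∪ toSet n b := by
  ext e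
  rw [mem_toSet, Finset.mem_union, mem_toSet, mem_toSet, Nat.testBit_or]
  cases a.testBit e.val <;> cases b.testBit e.val <;> simp

/-- set difference of masks -/
def mdiff (a b : ℕ) : ℕ := a ^^^ (a &&& b)

theorem toSet_mdiff (n a b : ℕ) : toSet n (mdiff a b) = toSet n a \ toSet n b := by
  ext e
  rw [mdiff, toSet_xor, toSet_and]
  simp only [Finset.mem_symmDiff, Finset.mem_inter, Finset.mem_sdiff]
  by_cases h1 : e ∈ toSet n a <;> by_cases h2 : e ∈ toSet n b <;> simp [h1, h2]

theorem toSet_full (n : ℕ) : toSet n (2 ^ n - 1) = Finset.univ := by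
  ext e
  rw [mem_toSet, Nat.testBit_two_pow_sub_one]
  simp [e.2]

theorem toSet_xor_full (n a : ℕ) : toSet n (a ^^^ (2 ^ n - 1)) = (toSet n a)ᶜ := by
  ext e
  rw [toSet_xor, toSet_full, Finset.mem_symmDiff, Finset.mem_compl]
  simp

theorem toSet_zero (n : ℕ) : toSet n 0 = ∅ := by
  ext e
  simp [mem_toSet]

/-- number of ones among the lowest eight bits, by table lookup -/
def pc8 (y : ℕ) : ℕ :=
  (0x8776766576656554766565546554544376656554655454436554544354434332766565546554544365545443544343326554544354434332544343324332322176656554655454436554544354434332655454435443433254434332433232216554544354434332544343324332322154434332433232214332322132212110 >>> (4 * y)) % 16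

/-- number of ones among the lowest `8 * f` bits -/
def pc : ℕ → ℕ → ℕ
  | 0, _ => 0
  | f + 1, x => pc8 (x % 256) + pc f (x / 256)

/-- number of ones among the lowest `n` bits (specification) -/
def ones : ℕ → ℕ → ℕ
  | 0, _ => 0
  | n + 1, x => (x % 2) + ones n (x / 2)

theorem pc8_eq : ∀ y < 256, pc8 y = ones 8 y := by decide +kernel

theorem ones_add (a b x : ℕ) : ones (a + b) x = ones a x + ones b (x / 2 ^ a) := by
  induction a generalizing x with
  | zero => simp [ones]
  | succ a ih =>
    rw [show a + 1 + b = (a + b) + 1 by ring, ones, ones, ih, Nat.div_div_eq_div_mul, pow_succ',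
      add_assoc]

theorem ones_mod (a x : ℕ) : ones a (x % 2 ^ a) = ones a x := by
  induction a generalizing x with
  | zero => rfl
  | succ a ih =>
    rw [ones, ones]
    have h1 : x % 2 ^ (a + 1) % 2 = x % 2 := by
      rw [pow_succ']
      exact Nat.mod_mul_right_mod x 2 (2 ^ a)
    have h2 : x % 2 ^ (a + 1) / 2 = (x / 2) % 2 ^ a := by
      rw [pow_succ', Nat.mod_mul_right_div_self]
    rw [h1, h2, ih]

theorem pc_eq (f x : ℕ) : pc f x = ones (8 * f) x := by
  induction f generalizing x with
  | zero => rfl
  | succ f ih =>
    rw [pc, pc8_eq _ (Nat.mod_lt _ (by norm_num)), ih, show 8 * (f + 1) = 8 + 8 * f by ring,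
      ones_add]
    congr 1
    exact ones_mod 8 x

theorem card_toSet (n m : ℕ) : (toSet n m).card = ones n m := by
  induction n generalizing m with
  | zero => rfl
  | succ n ih =>
    rw [ones, ← ih]
    have h : toSet (n + 1) m = (if m.testBit 0 = true then {0} else ∅) ∪
        (toSet n (m / 2)).map (Fin.succEmb n) := by
      ext e
      refine Fin.cases ?_ (fun i => ?_) e
      · rw [mem_toSet]
        by_cases h0 : m.testBit 0 = true
        · simp [h0]
        · simp only [Fin.val_zero, h0, Finset.mem_union, Finset.mem_map]
          constructor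
          · intro h; exact absurd h (by simp)
          · rintro (h | ⟨i, _, hi⟩)
            · simp at h
            · exact absurd hi (Fin.succ_ne_zero i)
      · rw [mem_toSet]
        rw [Finset.mem_union, Finset.mem_map]
        have h1 : m.testBit (Fin.succ i).val = (m / 2).testBit i.val := by
          rw [Fin.val_succ, Nat.testBit_succ]
        rw [h1]
        constructor
        · intro h
          right
          exact ⟨i, mem_toSet.2 h, rfl⟩
        · rintro (h | ⟨j, hj, hji⟩)
          · by_cases h0 : m.testBit 0 = true
            · simp only [h0, if_true, Finset.mem_singleton] at h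
              exact absurd h (Fin.succ_ne_zero i)
            · simp [h0] at h
          · have h2 : j = i := Fin.succ_injective n hji
            rw [← h2]
            exact mem_toSet.1 hj
    rw [h, Finset.card_union_of_disjoint, Finset.card_map]
    · congr 1
      rw [Nat.testBit_zero]
      rcases Nat.mod_two_eq_zero_or_one m with h0 | h0
      · simp [h0]
      · simp [h0]
    · rw [Finset.disjoint_left]
      intro x hx hy
      rw [Finset.mem_map] at hy
      obtain ⟨i, _, rfl⟩ := hy
      by_cases h0 : m.testBit 0 = true
      · simp only [h0, if_true, Finset.mem_singleton] at hx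
        exact absurd hx (Fin.succ_ne_zero i)
      · simp [h0] at hx

theorem ones_le (a b x : ℕ) : ones a x ≤ ones (a + b) x := by
  rw [ones_add]; exact Nat.le_add_right _ _

theorem card_toSet_le_pc {n f : ℕ} (h : n ≤ 8 * f) (m : ℕ) : (toSet n m).card ≤ pc f m := by
  rw [card_toSet, pc_eq]
  obtain ⟨b, hb⟩ := Nat.exists_eq_add_of_le h
  rw [hb]
  exact ones_le _ _ _

theorem ones_lt (n b x : ℕ) (h : x < 2 ^ n) : ones (n + b) x = ones n x := by
  rw [ones_add, Nat.div_eq_of_lt h]
  have h0 : ∀ b, ones b 0 = 0 := by
    intro b
    induction b with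
    | zero => rfl
    | succ b ih => rw [ones, Nat.zero_mod, Nat.zero_div, ih]
  rw [h0, add_zero]

theorem card_toSet_eq_pc {n f : ℕ} (h : n ≤ 8 * f) {m : ℕ} (hm : m < 2 ^ n) :
    (toSet n m).card = pc f m := by
  rw [card_toSet, pc_eq]
  obtain ⟨b, hb⟩ := Nat.exists_eq_add_of_le h
  rw [hb, ones_lt n b m hm]

end Pool.Agent.Work.MP_463270_co_h24
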