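import Mathlib
import Pool.Agent.Work.MP_463270_co_h24.Bits

set_option autoImplicit false

/-!
A recursive upper bound for the number of subsets of size at most `k` of a set containing at most
one element from each of the sets of a given list, computed on bit masks.
-/

namespace Pool.Agent.Work.MP_463270_co_h24

open scoped symmDiff

/-- list of the positions of the ones of `x`, highest first -/
def bitsOf : ℕ → ℕ → List ℕ
  | 0, _ => []
  | f + 1, x =>
    match Nat.beq x 0 with
    | true => []
    | false => Nat.log2 x :: bitsOf f (x - 2 ^ Nat.log2 x)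

theorem mem_bitsOf (f : ℕ) : ∀ x < 2 ^ f, ∀ e, x.testBit e = true → e ∈ bitsOf f x := by
  induction f with
  | zero =>
    intro x hx e he
    have : x = 0 := by simpa using hx
    rw [this, Nat.zero_testBit] at he
    exact absurd he (by decide)
  | succ f ih =>
    intro x hx e he
    have hx0 : x ≠ 0 := by
      rintro rfl
      rw [Nat.zero_testBit] at he
      exact absurd he (by decide)
    have hb : Nat.beq x 0 = false := by
      cases h : Nat.beq x 0
      · rfl
      · exact absurd (Nat.eq_of_beq_eq_true h) hx0
    rw [bitsOf, hb]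
    simp only
    rw [List.mem_cons]
    by_cases hle : e = Nat.log2 x
    · exact Or.inl hle
    · right
      have h1 : 2 ^ Nat.log2 x ≤ x := Nat.log2_self_le hx0
      have h2 : x < 2 ^ (Nat.log2 x + 1) := Nat.lt_log2_self
      have h3 : Nat.log2 x ≤ f := by
        have : Nat.log2 x < f + 1 := (Nat.log2_lt hx0).2 hx
        omega
      have h4 : x - 2 ^ Nat.log2 x = x % 2 ^ Nat.log2 x := by
        rw [pow_succ] at h2
        rw [Nat.mod_eq_sub_mod h1, Nat.mod_eq_of_lt (by omega)]
      have h5 : x - 2 ^ Nat.log2 x < 2 ^ f := by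
        rw [h4]
        exact lt_of_lt_of_le (Nat.mod_lt _ (by positivity)) (Nat.pow_le_pow_right (by norm_num) h3)
      apply ih _ h5
      rw [h4, Nat.testBit_mod_two_pow, he, Bool.and_true, decide_eq_true_eq]
      by_contra hcon
      push Not at hcon
      have h6 : Nat.log2 x + 1 ≤ e := by omega
      have h7 : x < 2 ^ e := lt_of_lt_of_le h2 (Nat.pow_le_pow_right (by norm_num) h6)
      rw [Nat.testBit_lt_two_pow h7] at he
      exact absurd he (by decide)

/-- union of the masks of the list containing `v` -/
def conf (v : ℕ) : List ℕ → ℕ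
  | [] => 0
  | B :: l =>
    match B.testBit v with
    | true => B ||| conf v l
    | false => conf v l

theorem subset_conf (n v : ℕ) (l : List ℕ) (B : ℕ) (hB : B ∈ l) (hv : B.testBit v = true) :
    toSet n B ⊆ toSet n (conf v l) := by
  induction l with
  | nil => simp at hB
  | cons C l ih =>
    rw [List.mem_cons] at hB
    rcases hB with rfl | hB
    · rw [conf, hv]
      simp only
      rw [toSet_or]
      exact Finset.subset_union_left
    · rw [conf]
      cases C.testBit v
      · exact ih hB
      · simp only
        rw [toSet_or]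
        exact (ih hB).trans Finset.subset_union_right

/-- sum of the values of a function over a list -/
def sumL : List ℕ → (ℕ → ℕ) → ℕ
  | [], _ => 0
  | v :: t, g => g v + sumL t g

/-- number of subsets of size at most `k` of a set of size `m` (for `k ≤ 3`) -/
def cs (m : ℕ) : ℕ → ℕ
  | 0 => 1
  | 1 => 1 + m
  | 2 => 1 + m + m * (m - 1) / 2
  | 3 => 1 + m + m * (m - 1) / 2 + m * (m - 1) * (m - 2) / 6
  | k + 4 => ∑ j ∈ Finset.range (k + 5), m.choose j

theorem choose_three (m : ℕ) : m.choose 3 = m * (m - 1) * (m - 2) / 6 := by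
  have h : m.descFactorial 3 = m * (m - 1) * (m - 2) := by
    simp only [Nat.descFactorial]
    rw [Nat.sub_zero, mul_one]
    ring
  rw [Nat.choose_eq_descFactorial_div_factorial, h]
  rfl

theorem cs_eq (m k : ℕ) : cs m k = ∑ j ∈ Finset.range (k + 1), m.choose j := by
  rcases k with _ | _ | _ | _ | k
  · simp [cs]
  · simp [cs, Finset.sum_range_succ]
  · simp [cs, Finset.sum_range_succ, Nat.choose_two_right]
  · simp [cs, Finset.sum_range_succ, Nat.choose_two_right, choose_three]
  · rfl

/-- the recursive bound -/
def bd (F f : ℕ) : List ℕ → ℕ → ℕ → ℕ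
  | [], S, k => cs (pc f S) k
  | B :: l, S, 0 => bd F f l (mdiff S B) 0
  | B :: l, S, k + 1 =>
    bd F f l (mdiff S B) (k + 1) +
      sumL (bitsOf F (S &&& B)) (fun v => bd F f l (mdiff (mdiff S B) (conf v l)) k)

theorem mdiff_lt {F a b : ℕ} (h : a < 2 ^ F) : mdiff a b < 2 ^ F :=
  Nat.xor_lt_two_pow h (lt_of_le_of_lt Nat.and_le_left h)

theorem card_le_sumL {β : Type*} [DecidableEq β] (l : List ℕ) (g : ℕ → ℕ) (G : ℕ → Finset β)
    (hG : ∀ v ∈ l, (G v).card ≤ g v) (X : Finset β) (hX : ∀ x ∈ X, ∃ v ∈ l, x ∈ G v) :
    X.card ≤ sumL l g := by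
  induction l generalizing X with
  | nil =>
    have : X = ∅ := by
      rw [Finset.eq_empty_iff_forall_notMem]
      intro x hx
      obtain ⟨v, hv, _⟩ := hX x hx
      simp at hv
    rw [this]; simp [sumL]
  | cons a l ih =>
    rw [sumL]
    have h1 : X ⊆ G a ∪ (X \ G a) := by
      intro x hx
      by_cases h : x ∈ G a
      · exact Finset.mem_union_left _ h
      · exact Finset.mem_union_right _ (Finset.mem_sdiff.2 ⟨hx, h⟩)
    refine (Finset.card_le_card h1).trans ((Finset.card_union_le _ _).trans ?_)
    refine Nat.add_le_add (hG a (List.mem_cons_self ..)) ?_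
    refine ih (fun v hv => hG v (List.mem_cons_of_mem _ hv)) _ ?_
    intro x hx
    rw [Finset.mem_sdiff] at hx
    obtain ⟨v, hv, hxv⟩ := hX x hx.1
    rw [List.mem_cons] at hv
    rcases hv with rfl | hv
    · exact absurd hxv hx.2
    · exact ⟨v, hv, hxv⟩

theorem card_small_le {α : Type*} [DecidableEq α] (S : Finset α) (k : ℕ) (G : Finset (Finset α))
    (h : ∀ D ∈ G, D ⊆ S ∧ D.card ≤ k) :
    G.card ≤ ∑ j ∈ Finset.range (k + 1), S.card.choose j := by
  have hsub : G ⊆ (Finset.range (k + 1)).biUnion (fun j => S.powersetCard j) := by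
    intro D hD
    rw [Finset.mem_biUnion]
    obtain ⟨h1, h2⟩ := h D hD
    exact ⟨D.card, Finset.mem_range.2 (by omega), Finset.mem_powersetCard.2 ⟨h1, rfl⟩⟩
  refine (Finset.card_le_card hsub).trans (Finset.card_biUnion_le.trans ?_)
  exact Finset.sum_le_sum fun j _ => (Finset.card_powersetCard j S).le

theorem mem_conf {n : ℕ} (D : Finset (Fin n)) (x y : Fin n) (hx : x ∈ D) (hy : y ∈ D)
    (hxy : x ≠ y) : ∀ l : List ℕ, (∀ B ∈ l, (D ∩ toSet n B).card ≤ 1) →
      x ∈ toSet n (conf y.val l) → False := by
  intro l
  induction l with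
  | nil =>
    intro _ h
    rw [conf, toSet_zero] at h
    simp at h
  | cons C l ih =>
    intro hl h
    rw [conf] at h
    cases hC : C.testBit y.val
    · rw [hC] at h
      exact ih (fun B hB => hl B (List.mem_cons_of_mem _ hB)) h
    · rw [hC] at h
      simp only at h
      rw [toSet_or, Finset.mem_union] at h
      rcases h with h | h
      · have h5 := hl C (List.mem_cons_self ..)
        have h6 : ({x, y} : Finset (Fin n)) ⊆ D ∩ toSet n C := by
          intro z hz
          rw [Finset.mem_insert, Finset.mem_singleton] at hz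
          rcases hz with rfl | rfl
          · exact Finset.mem_inter.2 ⟨hx, h⟩
          · exact Finset.mem_inter.2 ⟨hy, mem_toSet.2 hC⟩
        have h7 := Finset.card_le_card h6
        rw [Finset.card_pair hxy] at h7
        omega
      · exact ih (fun B hB => hl B (List.mem_cons_of_mem _ hB)) h

theorem card_le_bd {n F f : ℕ} (hn : n ≤ 8 * f) :
    ∀ (l : List ℕ) (S k : ℕ), S < 2 ^ F → ∀ G : Finset (Finset (Fin n)),
      (∀ D ∈ G, D ⊆ toSet n S ∧ D.card ≤ k ∧ ∀ B ∈ l, (D ∩ toSet n B).card ≤ 1) →
      G.card ≤ bd F f l S k := by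
  intro l
  induction l with
  | nil =>
    intro S k _ G hG
    rw [bd, cs_eq]
    refine (card_small_le (toSet n S) k G fun D hD => ⟨(hG D hD).1, (hG D hD).2.1⟩).trans ?_
    refine Finset.sum_le_sum fun j _ => Nat.choose_le_choose j (card_toSet_le_pc hn S)
  | cons B l ih =>
    intro S k hS G hG
    have hG1 : (G.filter fun D => D ∩ toSet n B = ∅).card ≤ bd F f l (mdiff S B) k := by
      refine ih _ _ (mdiff_lt hS) _ ?_
      intro D hD
      rw [Finset.mem_filter] at hD
      obtain ⟨h1, h2, h3⟩ := hG D hD.1
      refine ⟨?_, h2, fun B' hB' => h3 B' (List.mem_cons_of_mem _ hB')⟩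
      rw [toSet_mdiff]
      intro x hx
      rw [Finset.mem_sdiff]
      refine ⟨h1 hx, fun hxB => ?_⟩
      have : x ∈ D ∩ toSet n B := Finset.mem_inter.2 ⟨hx, hxB⟩
      rw [hD.2] at this
      simp at this
    have hsplit := Finset.card_filter_add_card_filter_not (s := G) (fun D => D ∩ toSet n B = ∅)
    rcases k with _ | k
    · rw [bd, ← hsplit]
      have : (G.filter fun D => ¬ D ∩ toSet n B = ∅) = ∅ := by
        rw [Finset.eq_empty_iff_forall_notMem]
        intro D hD
        rw [Finset.mem_filter] at hD
        obtain ⟨_, h2, _⟩ := hG D hD.1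
        have h4 : D = ∅ := Finset.card_eq_zero.1 (by omega)
        exact hD.2 (by rw [h4]; simp)
      rw [this, Finset.card_empty, add_zero]
      exact hG1
    · rw [bd, ← hsplit]
      refine Nat.add_le_add hG1 ?_
      refine card_le_sumL _ _
        (fun v => G.filter fun D => ∃ e : Fin n, e.val = v ∧ D ∩ toSet n B = {e}) ?_ _ ?_
      · intro v _
        by_cases hvn : v < n
        · -- remove the element `v`
          have hmem : ∀ D ∈ (G.filter fun D => ∃ e : Fin n, e.val = v ∧ D ∩ toSet n B = {e}),
              D ∈ G ∧ D ∩ toSet n B = {(⟨v, hvn⟩ : Fin n)} := by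
            intro D hD
            rw [Finset.mem_filter] at hD
            obtain ⟨hDG, e, he, hDe⟩ := hD
            refine ⟨hDG, ?_⟩
            rw [hDe]
            congr 1
            exact Fin.ext he
          have hmem' : ∀ D, D ∩ toSet n B = {(⟨v, hvn⟩ : Fin n)} → (⟨v, hvn⟩ : Fin n) ∈ D := by
            intro D hD
            have : (⟨v, hvn⟩ : Fin n) ∈ D ∩ toSet n B := by rw [hD]; simp
            exact (Finset.mem_inter.1 this).1
          have hinj : Set.InjOn (fun D : Finset (Fin n) => D.erase ⟨v, hvn⟩)
              ((G.filter fun D => ∃ e : Fin n, e.val = v ∧ D ∩ toSet n B = {e} : Finset _) :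
                Set (Finset (Fin n))) := by
            intro D hD D' hD' heq
            have h1 := hmem' D (hmem D (Finset.mem_coe.1 hD)).2
            have h2 := hmem' D' (hmem D' (Finset.mem_coe.1 hD')).2
            simp only at heq
            rw [← Finset.insert_erase h1, heq, Finset.insert_erase h2]
          rw [← Finset.card_image_of_injOn hinj]
          refine ih _ _ (mdiff_lt (mdiff_lt hS)) _ ?_
          intro D' hD'
          rw [Finset.mem_image] at hD'
          obtain ⟨D, hD, rfl⟩ := hD'
          obtain ⟨hDG, hDv⟩ := hmem D hD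
          obtain ⟨h1, h2, h3⟩ := hG D hDG
          have hvD := hmem' D hDv
          refine ⟨?_, ?_, ?_⟩
          · intro x hx
            rw [toSet_mdiff, toSet_mdiff, Finset.mem_sdiff, Finset.mem_sdiff]
            rw [Finset.mem_erase] at hx
            refine ⟨⟨h1 hx.2, fun hxB => ?_⟩, fun hxc => ?_⟩
            · have h4 : x ∈ D ∩ toSet n B := Finset.mem_inter.2 ⟨hx.2, hxB⟩
              rw [hDv, Finset.mem_singleton] at h4
              exact hx.1 h4
            · exact mem_conf D x ⟨v, hvn⟩ hx.2 hvD hx.1 l
                (fun B' hB' => h3 B' (List.mem_cons_of_mem _ hB')) hxc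
          · rw [Finset.card_erase_of_mem hvD]
            omega
          · intro B' hB'
            refine (Finset.card_le_card ?_).trans (h3 B' (List.mem_cons_of_mem _ hB'))
            exact Finset.inter_subset_inter_right (Finset.erase_subset _ _)
        · have : (G.filter fun D => ∃ e : Fin n, e.val = v ∧ D ∩ toSet n B = {e}) = ∅ := by
            rw [Finset.eq_empty_iff_forall_notMem]
            intro D hD
            rw [Finset.mem_filter] at hD
            obtain ⟨_, e, he, _⟩ := hD
            exact hvn (he ▸ e.2)
          rw [this]; simp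
      · intro D hD
        rw [Finset.mem_filter] at hD
        obtain ⟨h1, h2, h3⟩ := hG D hD.1
        have h4 := h3 B (List.mem_cons_self ..)
        obtain ⟨x, hx⟩ := Finset.nonempty_iff_ne_empty.2 hD.2
        refine ⟨x.val, ?_, ?_⟩
        · refine mem_bitsOf F _ (lt_of_le_of_lt Nat.and_le_left hS) _ ?_
          rw [Nat.testBit_and, mem_toSet.1 (h1 (Finset.mem_inter.1 hx).1),
            mem_toSet.1 (Finset.mem_inter.1 hx).2]
          rfl
        · rw [Finset.mem_filter]
          refine ⟨hD.1, x, rfl, ?_⟩
          ext e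
          rw [Finset.mem_singleton]
          constructor
          · intro he
            exact Finset.card_le_one.1 h4 e he x hx
          · rintro rfl
            exact hx

end Pool.Agent.Work.MP_463270_co_h24
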