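import Mathlib
import Pool.Agent.Work.MP_463270_co_h24.Bd

set_option autoImplicit false

/-!
The check functions evaluated by the kernel, and their meaning.
-/

namespace Pool.Agent.Work.MP_463270_co_h24

open scoped symmDiff

/-- entry `i` of the table `LN` of `n`-bit numbers -/
def getL (n LN i : ℕ) : ℕ := (LN >>> (n * i)) % 2 ^ n

theorem getL_lt (n LN i : ℕ) : getL n LN i < 2 ^ n := Nat.mod_lt _ (by positivity)

/-- the mask `0` or `2 ^ n - 1` -/
def fl (n b : ℕ) : ℕ :=
  match b with
  | 0 => 0
  | _ + 1 => 2 ^ n - 1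

theorem fl_lt (n b : ℕ) : fl n b < 2 ^ n := by
  have : 0 < 2 ^ n := by positivity
  cases b
  · exact this
  · simp only [fl]; omega

/-- one certificate entry processed: the new pair (mask of forbidden elements, list of sets
containing at most one element of the difference) -/
def upd (f i j B : ℕ) (s : ℕ) (l : List ℕ) : ℕ × List ℕ :=
  match pc f B with
  | 1 => (s ||| B, l)
  | 2 =>
    match Nat.blt j i with
    | true => (s ||| B, l)
    | false => (s, l)
  | 3 => (s, B :: l)
  | 4 =>
    match Nat.blt j i with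
    | true => (s, B :: l)
    | false => (s, l)
  | _ => (s, l)

/-- the bound for the number of canonical differences at index `i`, from the certificate `R` -/
def dec (n f N LN k i : ℕ) : ℕ → ℕ → ℕ → List ℕ → ℕ
  | 0, _, _, _ => 2 ^ n
  | fuel + 1, R, s, l =>
    match Nat.beq R 0 with
    | true => bd n f l ((2 ^ n - 1) ^^^ s) k
    | false =>
      match Nat.blt ((R % 2048) / 2) N with
      | false => 2 ^ n
      | true =>
        match upd f i ((R % 2048) / 2)
          ((getL n LN i ^^^ getL n LN ((R % 2048) / 2)) ^^^ fl n (R % 2)) s l with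
        | (s', l') => dec n f N LN k i fuel (R / 2048) s' l'

/-- sum of the bounds for consecutive indices -/
def tot (n f N LN k : ℕ) : ℕ → List ℕ → ℕ
  | _, [] => 0
  | i, R :: t => dec n f N LN k i 64 R 0 [] + tot n f N LN k (i + 1) t

theorem toSet_B (n LN i j b : ℕ) :
    toSet n ((getL n LN i ^^^ getL n LN j) ^^^ fl n b) =
        toSet n (getL n LN i) ∆ toSet n (getL n LN j) ∨
      toSet n ((getL n LN i ^^^ getL n LN j) ^^^ fl n b) =
        (toSet n (getL n LN i) ∆ toSet n (getL n LN j))ᶜ := by
  cases b with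
  | zero =>
    left
    simp only [fl]
    rw [Nat.xor_zero, toSet_xor]
  | succ b =>
    right
    simp only [fl]
    rw [toSet_xor_full, toSet_xor]

theorem upd_spec {n f N LN k i j : ℕ} (hn : n ≤ 8 * f) (hj : j < N) {B : ℕ} (hB : B < 2 ^ n)
    (hB' : toSet n B = toSet n (getL n LN i) ∆ toSet n (getL n LN j) ∨
      toSet n B = (toSet n (getL n LN i) ∆ toSet n (getL n LN j))ᶜ)
    {s : ℕ} {l : List ℕ} {D : Finset (Fin n)}
    (hD : Good (fun a => toSet n (getL n LN a)) N i D)
    (hs : D ∩ toSet n s = ∅) (hl : ∀ C ∈ l, (D ∩ toSet n C).card ≤ 1) :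
    D ∩ toSet n (upd f i j B s l).1 = ∅ ∧
      ∀ C ∈ (upd f i j B s l).2, (D ∩ toSet n C).card ≤ 1 := by
  have hcard : (toSet n B).card = pc f B := card_toSet_eq_pc hn hB
  have hv := hD j hj (toSet n B) hB'
  rw [hcard] at hv
  push Not at hv
  obtain ⟨hv1, hv2⟩ := hv
  have hor : (D ∩ toSet n B).card = 0 → D ∩ toSet n (s ||| B) = ∅ := by
    intro h0
    rw [toSet_or, Finset.inter_union_distrib_left, hs, Finset.card_eq_zero.1 h0]
    rfl
  unfold upd
  split
  · rename_i h
    rw [h] at hv1
    exact ⟨hor (by omega), hl⟩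
  · rename_i h
    rw [h] at hv1 hv2
    split
    · rename_i hji
      rw [Nat.blt_eq] at hji
      refine ⟨hor ?_, hl⟩
      by_contra h0
      have h1 : 2 = 2 * (D ∩ toSet n B).card := by omega
      have := hv2 h1
      omega
    · exact ⟨hs, hl⟩
  · rename_i h
    rw [h] at hv1
    refine ⟨hs, ?_⟩
    intro C hC
    rw [List.mem_cons] at hC
    rcases hC with rfl | hC
    · omega
    · exact hl C hC
  · rename_i h
    rw [h] at hv1 hv2
    split
    · rename_i hji
      rw [Nat.blt_eq] at hji
      refine ⟨hs, ?_⟩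
      intro C hC
      rw [List.mem_cons] at hC
      rcases hC with rfl | hC
      · by_contra h0
        have h1 : 4 = 2 * (D ∩ toSet n C).card := by omega
        have := hv2 h1
        omega
      · exact hl C hC
    · exact ⟨hs, hl⟩
  · exact ⟨hs, hl⟩

theorem card_le_two_pow {n : ℕ} (G : Finset (Finset (Fin n))) : G.card ≤ 2 ^ n := by
  refine (Finset.card_le_univ G).trans ?_
  rw [Fintype.card_finset, Fintype.card_fin]

theorem dec_spec {n f N LN k i : ℕ} (hn : n ≤ 8 * f) :
    ∀ (fuel R s : ℕ) (l : List ℕ), s < 2 ^ n → ∀ G : Finset (Finset (Fin n)),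
      (∀ D ∈ G, D.card ≤ k ∧ Good (fun a => toSet n (getL n LN a)) N i D ∧
        D ∩ toSet n s = ∅ ∧ ∀ C ∈ l, (D ∩ toSet n C).card ≤ 1) →
      G.card ≤ dec n f N LN k i fuel R s l := by
  intro fuel
  induction fuel with
  | zero =>
    intro R s l _ G _
    rw [dec]
    exact card_le_two_pow G
  | succ fuel ih =>
    intro R s l hs G hG
    rw [dec]
    split
    · refine card_le_bd hn l _ k ?_ G ?_
      · refine Nat.xor_lt_two_pow ?_ hs
        have : 0 < 2 ^ n := by positivity
        omega
      · intro D hD
        obtain ⟨h1, _, h3, h4⟩ := hG D hD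
        refine ⟨?_, h1, h4⟩
        rw [Nat.xor_comm, toSet_xor_full]
        intro x hx
        rw [Finset.mem_compl]
        intro hxs
        have : x ∈ D ∩ toSet n s := Finset.mem_inter.2 ⟨hx, hxs⟩
        rw [h3] at this
        simp at this
    · split
      · exact card_le_two_pow G
      · rename_i hj
        rw [Nat.blt_eq] at hj
        have hB : (getL n LN i ^^^ getL n LN (R % 2048 / 2)) ^^^ fl n (R % 2) < 2 ^ n :=
          Nat.xor_lt_two_pow (Nat.xor_lt_two_pow (getL_lt _ _ _) (getL_lt _ _ _)) (fl_lt _ _)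
        have hu := fun D hD => upd_spec (k := k) hn hj hB (toSet_B n LN i (R % 2048 / 2) (R % 2))
          (hG D hD).2.1 (hG D hD).2.2.1 (hG D hD).2.2.2
        split
        rename_i s' l' heq
        rw [heq] at hu
        refine ih _ _ _ ?_ G ?_
        · have h5 : s' = s ∨ s' = s ||| ((getL n LN i ^^^ getL n LN (R % 2048 / 2)) ^^^ fl n (R % 2)) := by
            have h6 : s' = (upd f i (R % 2048 / 2)
              ((getL n LN i ^^^ getL n LN (R % 2048 / 2)) ^^^ fl n (R % 2)) s l).1 := by rw [heq]
            rw [h6]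
            unfold upd
            split
            · right; rfl
            · split
              · right; rfl
              · left; rfl
            · left; rfl
            · split
              · left; rfl
              · left; rfl
            · left; rfl
          rcases h5 with h5 | h5
          · rw [h5]; exact hs
          · rw [h5]; exact Nat.or_lt_two_pow hs hB
        · intro D hD
          exact ⟨(hG D hD).1, (hG D hD).2.1, (hu D hD).1, (hu D hD).2⟩

/-- bound for one index -/
def one (n f N LN k i R : ℕ) : ℕ := dec n f N LN k i 64 R 0 []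

theorem one_spec {n f N LN k i : ℕ} (hn : n ≤ 8 * f) (R : ℕ) (G : Finset (Finset (Fin n)))
    (hG : ∀ D ∈ G, D.card ≤ k ∧ Good (fun a => toSet n (getL n LN a)) N i D) :
    G.card ≤ one n f N LN k i R := by
  refine dec_spec hn 64 R 0 [] (by positivity) G ?_
  intro D hD
  refine ⟨(hG D hD).1, (hG D hD).2, ?_, ?_⟩
  · rw [toSet_zero]; simp
  · intro C hC; simp at hC

end Pool.Agent.Work.MP_463270_co_h24
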