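import Mathlib
import Pool.Agent.Work.MP_463270_co.Defs

set_option autoImplicit false

/-!
The oriented matroid of rank `n - 3` on `n` elements whose signed circuits are the sign vectors
`e ↦ sign det (w i, w j, w e)` for a configuration `w` of `n` vectors in three-space, any three
of which are linearly independent.
-/

namespace Pool.Agent.Work.MP_463270_co_h24

open Pool.Agent.Work.MP_463270_co

variable {n : ℕ}

/-- scalar product of two vectors of `ℚ^3` -/
def dot (u v : ℚ × ℚ × ℚ) : ℚ := u.1 * v.1 + u.2.1 * v.2.1 + u.2.2 * v.2.2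

/-- cross product of two vectors of `ℚ^3` -/
def crs (u v : ℚ × ℚ × ℚ) : ℚ × ℚ × ℚ :=
  (u.2.1 * v.2.2 - u.2.2 * v.2.1, u.2.2 * v.1 - u.1 * v.2.2, u.1 * v.2.1 - u.2.1 * v.1)

theorem dot_self_pos {u : ℚ × ℚ × ℚ} (h : u ≠ 0) : 0 < dot u u := by
  obtain ⟨a, b, c⟩ := u
  unfold dot
  simp only
  by_contra hcon
  have h1 : a = 0 := by nlinarith [mul_self_nonneg a, mul_self_nonneg b, mul_self_nonneg c]
  have h2 : b = 0 := by nlinarith [mul_self_nonneg a, mul_self_nonneg b, mul_self_nonneg c]
  have h3 : c = 0 := by nlinarith [mul_self_nonneg a, mul_self_nonneg b, mul_self_nonneg c]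
  exact h (by rw [h1, h2, h3]; rfl)

theorem dot_crs_left (u v : ℚ × ℚ × ℚ) : dot (crs u v) u = 0 := by
  unfold dot crs; simp only; ring

theorem dot_crs_right (u v : ℚ × ℚ × ℚ) : dot (crs u v) v = 0 := by
  unfold dot crs; simp only; ring

theorem dot_add_smul (s t : ℚ) (u v w : ℚ × ℚ × ℚ) :
    dot (s • u + t • v) w = s * dot u w + t * dot v w := by
  unfold dot; simp only [Prod.fst_add, Prod.snd_add, Prod.smul_fst, Prod.smul_snd, smul_eq_mul]
  ring

theorem dot_smul (s : ℚ) (u w : ℚ × ℚ × ℚ) : dot (s • u) w = s * dot u w := by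
  unfold dot; simp only [Prod.smul_fst, Prod.smul_snd, smul_eq_mul]; ring

theorem dot_comm (u w : ℚ × ℚ × ℚ) : dot u w = dot w u := by
  unfold dot; ring

/-- a vector orthogonal to `a` and `b` is a multiple of `a × b` -/
theorem eq_smul_crs {v a b : ℚ × ℚ × ℚ} (h : crs a b ≠ 0) (ha : dot v a = 0) (hb : dot v b = 0) :
    v = (dot (crs a b) v / dot (crs a b) (crs a b)) • crs a b := by
  have hpos := dot_self_pos h
  have hne : dot (crs a b) (crs a b) ≠ 0 := ne_of_gt hpos
  obtain ⟨v1, v2, v3⟩ := v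
  obtain ⟨a1, a2, a3⟩ := a
  obtain ⟨b1, b2, b3⟩ := b
  simp only [dot, crs] at ha hb hne ⊢
  simp only [Prod.smul_mk, smul_eq_mul, Prod.mk.injEq]
  refine ⟨?_, ?_, ?_⟩
  · rw [div_mul_eq_mul_div, eq_div_iff hne]
    linear_combination (a1*b2^2 + a1*b3^2 - a2*b1*b2 - a3*b1*b3) * ha + (-a1*a2*b2 - a1*a3*b3 + a2^2*b1 + a3^2*b1) * hb
  · rw [div_mul_eq_mul_div, eq_div_iff hne]
    linear_combination (-a1*b1*b2 + a2*b1^2 + a2*b3^2 - a3*b2*b3) * ha + (a1^2*b2 - a1*a2*b1 - a2*a3*b3 + a3^2*b2) * hb
  · rw [div_mul_eq_mul_div, eq_div_iff hne]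
    linear_combination (-a1*b1*b3 - a2*b2*b3 + a3*b1^2 + a3*b2^2) * ha + (a1^2*b3 - a1*a3*b1 + a2^2*b3 - a2*a3*b2) * hb


/-- the sign vector of the linear functional `v` -/
def sv (w : Fin n → ℚ × ℚ × ℚ) (v : ℚ × ℚ × ℚ) : Fin n → SignType :=
  fun e => SignType.sign (dot v (w e))

/-- any three of the vectors are linearly independent -/
def Generic (w : Fin n → ℚ × ℚ × ℚ) : Prop :=
  ∀ i j e, i ≠ j → i ≠ e → j ≠ e → dot (crs (w i) (w j)) (w e) ≠ 0

theorem crs_swap (a b : ℚ × ℚ × ℚ) : crs b a = (-1 : ℚ) • crs a b := by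
  obtain ⟨a1, a2, a3⟩ := a
  obtain ⟨b1, b2, b3⟩ := b
  simp only [crs, Prod.smul_mk, smul_eq_mul, Prod.mk.injEq]
  refine ⟨?_, ?_, ?_⟩ <;> ring

theorem sv_neg (w : Fin n → ℚ × ℚ × ℚ) (v : ℚ × ℚ × ℚ) : sv w ((-1 : ℚ) • v) = -sv w v := by
  ext e
  rw [Pi.neg_apply, sv, sv, dot_smul, neg_one_mul, Left.sign_neg]

theorem sv_smul_pos (w : Fin n → ℚ × ℚ × ℚ) (v : ℚ × ℚ × ℚ) {c : ℚ} (hc : 0 < c) :
    sv w (c • v) = sv w v := by
  ext e
  rw [sv, sv, dot_smul, sign_mul, sign_pos hc, one_mul]

theorem sv_swap (w : Fin n → ℚ × ℚ × ℚ) (i j : Fin n) :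
    sv w (crs (w j) (w i)) = -sv w (crs (w i) (w j)) := by
  rw [crs_swap, sv_neg]

theorem sv_eq_zero {w : Fin n → ℚ × ℚ × ℚ} (hw : Generic w) {i j : Fin n} (hij : i ≠ j)
    (e : Fin n) : sv w (crs (w i) (w j)) e = 0 ↔ e = i ∨ e = j := by
  rw [sv, sign_eq_zero_iff]
  constructor
  · intro h
    by_contra hcon
    push Not at hcon
    exact hw i j e hij (Ne.symm hcon.1) (Ne.symm hcon.2) h
  · rintro (rfl | rfl)
    · exact dot_crs_left _ _
    · exact dot_crs_right _ _

theorem exists_third (hn : 3 ≤ n) (i j : Fin n) : ∃ e : Fin n, e ≠ i ∧ e ≠ j := by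
  have h : ({i, j} : Finset (Fin n)).card < (Finset.univ : Finset (Fin n)).card := by
    have h1 := Finset.card_le_two (a := i) (b := j)
    rw [Finset.card_univ, Fintype.card_fin]
    omega
  obtain ⟨e, _, he⟩ := Finset.exists_mem_notMem_of_card_lt_card h
  refine ⟨e, ?_, ?_⟩
  · rintro rfl; simp at he
  · rintro rfl; simp at he

theorem crs_ne_zero {w : Fin n → ℚ × ℚ × ℚ} (hw : Generic w) (hn : 3 ≤ n) {i j : Fin n}
    (hij : i ≠ j) : crs (w i) (w j) ≠ 0 := by
  intro h
  obtain ⟨e, hi, hj⟩ := exists_third hn i j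
  refine hw i j e hij hi.symm hj.symm ?_
  rw [h]
  simp [dot]

/-- a nonzero functional vanishing at the distinct elements `i` and `j` has the sign vector of
`w i × w j` or of `w j × w i` -/
theorem sv_of_zero {w : Fin n → ℚ × ℚ × ℚ} (hw : Generic w) (hn : 3 ≤ n) {i j : Fin n}
    (hij : i ≠ j) {v : ℚ × ℚ × ℚ} (hv : v ≠ 0) (hi : dot v (w i) = 0) (hj : dot v (w j) = 0) :
    sv w v = sv w (crs (w i) (w j)) ∨ sv w v = sv w (crs (w j) (w i)) := by
  have h0 := crs_ne_zero hw hn hij
  have h := eq_smul_crs h0 hi hj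
  set c := dot (crs (w i) (w j)) v / dot (crs (w i) (w j)) (crs (w i) (w j)) with hc
  rcases lt_trichotomy c 0 with h1 | h1 | h1
  · right
    rw [sv_swap, h]
    have : c • crs (w i) (w j) = (-1 : ℚ) • ((-c) • crs (w i) (w j)) := by
      rw [smul_smul]; congr 1; ring
    rw [this, sv_neg, sv_smul_pos _ _ (by linarith : 0 < -c)]
  · exact absurd (by rw [h, h1, zero_smul]) hv
  · left
    rw [h, sv_smul_pos _ _ h1]

/-- the key step for circuit elimination: a nonzero functional `z` vanishing at `a` dominates a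
circuit vanishing at `a` -/
theorem exists_conformal {w : Fin n → ℚ × ℚ × ℚ} (hw : Generic w) (hn : 3 ≤ n) (a : Fin n)
    {z : ℚ × ℚ × ℚ} (hz : z ≠ 0) (ha : dot z (w a) = 0) :
    ∃ i j, i ≠ j ∧ sv w (crs (w i) (w j)) a = 0 ∧
      (∀ f, sv w (crs (w i) (w j)) f = 1 → 0 < dot z (w f)) ∧
      (∀ f, sv w (crs (w i) (w j)) f = -1 → dot z (w f) < 0) := by
  classical
  by_cases hex : ∃ b, b ≠ a ∧ dot z (w b) = 0
  · obtain ⟨b, hba, hb⟩ := hex
    rcases sv_of_zero hw hn hba.symm hz ha hb with h | h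
    · refine ⟨a, b, hba.symm, ?_, ?_, ?_⟩
      · rw [← h, sv, ha, sign_zero]
      · intro f hf
        rw [← h, sv, sign_eq_one_iff] at hf
        exact hf
      · intro f hf
        rw [← h, sv, sign_eq_neg_one_iff] at hf
        exact hf
    · refine ⟨b, a, hba, ?_, ?_, ?_⟩
      · rw [← h, sv, ha, sign_zero]
      · intro f hf
        rw [← h, sv, sign_eq_one_iff] at hf
        exact hf
      · intro f hf
        rw [← h, sv, sign_eq_neg_one_iff] at hf
        exact hf
  · push Not at hex
    -- a direction orthogonal to `z` and `w a`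
    have key : ∃ u : ℚ × ℚ × ℚ, dot u (w a) = 0 ∧ dot u z = 0 ∧
        ∃ f, f ≠ a ∧ dot z (w f) * dot u (w f) < 0 := by
      obtain ⟨b, hba, _⟩ := exists_third hn a a
      obtain ⟨c, hca, hcb⟩ := exists_third hn a b
      have h1 : dot (crs z (w a)) (w a) = 0 := dot_crs_right _ _
      have h2 : dot (crs z (w a)) z = 0 := dot_crs_left _ _
      have hor : dot (crs z (w a)) (w b) ≠ 0 ∨ dot (crs z (w a)) (w c) ≠ 0 := by
        by_contra hcon
        push Not at hcon
        have hu : crs z (w a) = 0 := by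
          by_contra hu
          have h3 := crs_ne_zero hw hn (Ne.symm hcb)
          have h4 := eq_smul_crs h3 hcon.1 hcon.2
          have h5 : dot (crs z (w a)) (w a) ≠ 0 := by
            rw [h4, dot_smul]
            refine mul_ne_zero ?_ (hw b c a (Ne.symm hcb) hba hca)
            intro h6
            exact hu (by rw [h4, h6, zero_smul])
          exact h5 h1
        -- then `z` is parallel to `w a`, contradiction with orthogonality
        have hwa : w a ≠ 0 := by
          intro h0
          refine crs_ne_zero hw hn hba ?_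
          rw [h0]
          simp [crs]
        have hp1 := dot_self_pos hwa
        have hp2 := dot_self_pos hz
        have h5 : dot (crs z (w a)) (crs z (w a)) = dot z z * dot (w a) (w a)
            - dot z (w a) * dot z (w a) := by
          unfold dot crs; simp only; ring
        rw [hu, ha] at h5
        have h6 : dot (0 : ℚ × ℚ × ℚ) 0 = 0 := by simp [dot]
        rw [h6] at h5
        nlinarith [mul_pos hp2 hp1]
      have main : ∀ b, b ≠ a → dot (crs z (w a)) (w b) ≠ 0 →
          ∃ u : ℚ × ℚ × ℚ, dot u (w a) = 0 ∧ dot u z = 0 ∧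
            ∃ f, f ≠ a ∧ dot z (w f) * dot u (w f) < 0 := by
        intro b hba hb
        have hzb := hex b hba
        have hne := mul_ne_zero hzb hb
        rcases lt_or_gt_of_ne hne with h | h
        · exact ⟨crs z (w a), h1, h2, b, hba, h⟩
        · refine ⟨(-1 : ℚ) • crs z (w a), ?_, ?_, b, hba, ?_⟩
          · rw [dot_smul, h1, mul_zero]
          · rw [dot_smul, h2, mul_zero]
          · rw [dot_smul]; linarith
      rcases hor with h | h
      · exact main b hba h
      · exact main c hca h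
    obtain ⟨u, hua, huz, f0, hf0a, hf0⟩ := key
    have huz' : dot z u = 0 := by rw [dot_comm]; exact huz
    set C : Finset (Fin n) := Finset.univ.filter fun f => dot z (w f) * dot u (w f) < 0 with hC
    have hCne : C.Nonempty := ⟨f0, by rw [hC, Finset.mem_filter]; exact ⟨Finset.mem_univ _, hf0⟩⟩
    obtain ⟨p, hpC, hpmin⟩ := C.exists_min_image (fun f => -dot z (w f) / dot u (w f)) hCne
    have hp : dot z (w p) * dot u (w p) < 0 := by
      rw [hC, Finset.mem_filter] at hpC; exact hpC.2
    have hpu : dot u (w p) ≠ 0 := by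
      intro h; rw [h, mul_zero] at hp; exact lt_irrefl _ hp
    set t := -dot z (w p) / dot u (w p) with ht
    have htpos : 0 < t := by
      rcases lt_or_gt_of_ne hpu with h | h
      · have h1 : 0 < dot z (w p) := by
          by_contra hcon; push Not at hcon; nlinarith
        rw [ht]; exact div_pos_of_neg_of_neg (by linarith) h
      · have h1 : dot z (w p) < 0 := by
          by_contra hcon; push Not at hcon; nlinarith
        rw [ht]; exact div_pos (by linarith) h
    have hpa : p ≠ a := by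
      rintro rfl; rw [ha, zero_mul] at hp; exact lt_irrefl _ hp
    -- the new functional
    have hv : ∀ x, dot ((1 : ℚ) • z + t • u) x = dot z x + t * dot u x := by
      intro x; rw [dot_add_smul, one_mul]
    have hvne : (1 : ℚ) • z + t • u ≠ 0 := by
      intro h0
      have h1 := hv z
      rw [h0, huz, mul_zero, add_zero] at h1
      have h2 : dot (0 : ℚ × ℚ × ℚ) z = 0 := by simp [dot]
      rw [h2] at h1
      exact absurd (dot_self_pos hz) (by rw [← h1]; exact lt_irrefl _)
    have hva : dot ((1 : ℚ) • z + t • u) (w a) = 0 := by rw [hv, ha, hua]; ring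
    have hvp : dot ((1 : ℚ) • z + t • u) (w p) = 0 := by
      rw [hv, ht]; field_simp; ring
    have hconf : ∀ f, (0 < dot ((1 : ℚ) • z + t • u) (w f) → 0 < dot z (w f)) ∧
        (dot ((1 : ℚ) • z + t • u) (w f) < 0 → dot z (w f) < 0) := by
      intro f
      rw [hv]
      by_cases hf : dot z (w f) * dot u (w f) < 0
      · have hfC : f ∈ C := by rw [hC, Finset.mem_filter]; exact ⟨Finset.mem_univ _, hf⟩
        have hmin : t ≤ -dot z (w f) / dot u (w f) := hpmin f hfC
        have hfu : dot u (w f) ≠ 0 := by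
          intro h; rw [h, mul_zero] at hf; exact lt_irrefl _ hf
        rcases lt_or_gt_of_ne hfu with h | h
        · have h1 : 0 < dot z (w f) := by
            by_contra hcon; push Not at hcon; nlinarith
          rw [le_div_iff_of_neg h] at hmin
          exact ⟨fun _ => h1, fun h2 => by linarith⟩
        · have h1 : dot z (w f) < 0 := by
            by_contra hcon; push Not at hcon; nlinarith
          rw [le_div_iff₀ h] at hmin
          exact ⟨fun h2 => by linarith, fun _ => h1⟩
      · push Not at hf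
        constructor
        · intro h
          by_contra hcon
          push Not at hcon
          have h1 : 0 < dot u (w f) := by
            by_contra h2; push Not at h2; nlinarith
          have h3 : dot z (w f) = 0 := by nlinarith
          by_cases hfa : f = a
          · rw [hfa, hua] at h1; exact lt_irrefl _ h1
          · exact hex f hfa h3
        · intro h
          by_contra hcon
          push Not at hcon
          have h1 : dot u (w f) < 0 := by
            by_contra h2; push Not at h2; nlinarith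
          have h3 : dot z (w f) = 0 := by nlinarith
          by_cases hfa : f = a
          · rw [hfa, hua] at h1; exact lt_irrefl _ h1
          · exact hex f hfa h3
    rcases sv_of_zero hw hn hpa.symm hvne hva hvp with h | h
    · refine ⟨a, p, hpa.symm, ?_, ?_, ?_⟩
      · rw [← h, sv, hva, sign_zero]
      · intro f hf
        rw [← h, sv, sign_eq_one_iff] at hf
        exact (hconf f).1 hf
      · intro f hf
        rw [← h, sv, sign_eq_neg_one_iff] at hf
        exact (hconf f).2 hf
    · refine ⟨p, a, hpa, ?_, ?_, ?_⟩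
      · rw [← h, sv, hva, sign_zero]
      · intro f hf
        rw [← h, sv, sign_eq_one_iff] at hf
        exact (hconf f).1 hf
      · intro f hf
        rw [← h, sv, sign_eq_neg_one_iff] at hf
        exact (hconf f).2 hf


/-- circuit elimination for the sign vectors of a generic configuration -/
theorem planar_elimination {w : Fin n → ℚ × ℚ × ℚ} (hw : Generic w) (hn : 3 ≤ n)
    (x y : ℚ × ℚ × ℚ) (hne : sv w x ≠ -sv w y) (a : Fin n)
    (ha1 : sv w x a = 1) (ha2 : sv w y a = -1) :
    ∃ p q, p ≠ q ∧ sv w (crs (w p) (w q)) a = 0 ∧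
      (∀ f, sv w (crs (w p) (w q)) f = 1 → sv w x f = 1 ∨ sv w y f = 1) ∧
      (∀ f, sv w (crs (w p) (w q)) f = -1 → sv w x f = -1 ∨ sv w y f = -1) := by
  rw [sv, sign_eq_one_iff] at ha1
  rw [sv, sign_eq_neg_one_iff] at ha2
  have hspos : 0 < -dot y (w a) := by linarith
  have hz : (-dot y (w a)) • x + (dot x (w a)) • y ≠ 0 := by
    intro h0
    apply hne
    generalize -dot y (w a) = s at h0 hspos
    generalize dot x (w a) = t at h0 ha1
    have h1 : x = (-1 : ℚ) • ((t / s) • y) := by
      have h2 : s • x = -(t • y) := eq_neg_of_add_eq_zero_left h0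
      have h3 : x = s⁻¹ • (s • x) := by rw [smul_smul, inv_mul_cancel₀ (ne_of_gt hspos), one_smul]
      rw [h3, h2, ← neg_smul, smul_smul, smul_smul]
      congr 1
      rw [div_eq_mul_inv]; ring
    rw [h1, sv_neg, sv_smul_pos _ _ (div_pos ha1 hspos)]
  have hza : dot ((-dot y (w a)) • x + (dot x (w a)) • y) (w a) = 0 := by
    rw [dot_add_smul]; ring
  obtain ⟨p, q, hpq, h0, hpos, hneg⟩ := exists_conformal hw hn a hz hza
  refine ⟨p, q, hpq, h0, ?_, ?_⟩
  · intro f hf
    have h1 := hpos f hf
    rw [dot_add_smul] at h1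
    rw [sv, sv, sign_eq_one_iff, sign_eq_one_iff]
    by_contra hcon
    push Not at hcon
    nlinarith [mul_nonneg hspos.le (neg_nonneg.2 hcon.1), mul_nonneg ha1.le (neg_nonneg.2 hcon.2)]
  · intro f hf
    have h1 := hneg f hf
    rw [dot_add_smul] at h1
    rw [sv, sv, sign_eq_neg_one_iff, sign_eq_neg_one_iff]
    by_contra hcon
    push Not at hcon
    nlinarith [mul_nonneg hspos.le hcon.1, mul_nonneg ha1.le hcon.2]

/-- The signed circuits: the sign vectors `e ↦ sign det (w i, w j, w e)` for `i ≠ j`. -/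
def planarCircuits (w : Fin n → ℚ × ℚ × ℚ) : Set (Fin n → SignType) :=
  {X | ∃ i j, i ≠ j ∧ X = sv w (crs (w i) (w j))}

theorem planar_incomparable {w : Fin n → ℚ × ℚ × ℚ} (hw : Generic w) {i j k l : Fin n}
    (hij : i ≠ j) (hkl : k ≠ l)
    (h : ∀ e, sv w (crs (w i) (w j)) e ≠ 0 → sv w (crs (w k) (w l)) e ≠ 0) :
    sv w (crs (w i) (w j)) = sv w (crs (w k) (w l)) ∨
      sv w (crs (w i) (w j)) = -sv w (crs (w k) (w l)) := by
  have h1 : ∀ e, e = k ∨ e = l → e = i ∨ e = j := by
    intro e he
    rw [← sv_eq_zero hw hij]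
    by_contra hcon
    exact h e hcon ((sv_eq_zero hw hkl e).2 he)
  rcases h1 k (Or.inl rfl) with rfl | rfl
  · rcases h1 l (Or.inr rfl) with rfl | rfl
    · exact absurd rfl hkl
    · exact Or.inl rfl
  · rcases h1 l (Or.inr rfl) with rfl | rfl
    · right; rw [sv_swap]
    · exact absurd rfl hkl

/-- The oriented matroid (of rank `n - 3`) of a generic configuration of `n` vectors in
three-space: its circuits are the sign vectors `e ↦ sign det (w i, w j, w e)`, `i ≠ j`. -/
def planar (w : Fin n → ℚ × ℚ × ℚ) (hw : Generic w) (hn : 3 ≤ n) : OrientedMatroid (Fin n) where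
  circuits := planarCircuits w
  zero_notMem := by
    rintro ⟨i, j, hij, h⟩
    obtain ⟨e, hi, hj⟩ := exists_third hn i j
    have h1 := (sv_eq_zero hw hij e).1 (by rw [← h]; rfl)
    rcases h1 with h1 | h1
    · exact hi h1
    · exact hj h1
  neg_mem := by
    rintro _ ⟨i, j, hij, rfl⟩
    exact ⟨j, i, hij.symm, (sv_swap w i j).symm⟩
  incomparable := by
    rintro _ ⟨i, j, hij, rfl⟩ _ ⟨k, l, hkl, rfl⟩ h
    exact planar_incomparable hw hij hkl h
  elimination := by
    rintro _ ⟨i, j, hij, rfl⟩ _ ⟨k, l, hkl, rfl⟩ hne a ha1 ha2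
    obtain ⟨p, q, hpq, h0, hpos, hneg⟩ := planar_elimination hw hn _ _ hne a ha1 ha2
    exact ⟨_, ⟨p, q, hpq, rfl⟩, h0, hpos, hneg⟩

theorem planar_hasRank (w : Fin n → ℚ × ℚ × ℚ) (hw : Generic w) (hn : 3 ≤ n) :
    (planar w hw hn).HasRank (n - 3) := by
  classical
  constructor
  · obtain ⟨I, _, hI⟩ := Finset.exists_subset_card_eq (s := (Finset.univ : Finset (Fin n)))
      (n := n - 3) (by rw [Finset.card_univ, Fintype.card_fin]; omega)
    refine ⟨I, ?_, hI⟩
    rintro _ ⟨i, j, hij, rfl⟩
    have h1 : ({i, j} : Finset (Fin n)).card < (Iᶜ).card := by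
      rw [Finset.card_compl, Fintype.card_fin, hI]
      have := Finset.card_le_two (a := i) (b := j)
      omega
    obtain ⟨e, heI, he⟩ := Finset.exists_mem_notMem_of_card_lt_card h1
    refine ⟨e, ?_, by simpa using heI⟩
    rw [Ne, sv_eq_zero hw hij]
    rintro (rfl | rfl)
    · simp at he
    · simp at he
  · intro I hI
    by_contra hcon
    push Not at hcon
    have h1 : (Iᶜ).card ≤ 2 := by
      rw [Finset.card_compl, Fintype.card_fin]; omega
    obtain ⟨J, hJ1, _, hJ2⟩ := Finset.exists_subsuperset_card_eq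
      (Finset.subset_univ Iᶜ) h1 (by rw [Finset.card_univ, Fintype.card_fin]; omega)
    obtain ⟨i, j, hij, rfl⟩ := Finset.card_eq_two.1 hJ2
    obtain ⟨e, he1, he2⟩ := hI _ ⟨i, j, hij, rfl⟩
    rw [Ne, sv_eq_zero hw hij] at he1
    apply he1
    have := hJ1 (Finset.mem_compl.2 he2)
    simpa using this

theorem planar_hasRank' {r : ℕ} (w : Fin n → ℚ × ℚ × ℚ) (hw : Generic w) (hn : 3 ≤ n)
    (hr : n - 3 = r) : (planar w hw hn).HasRank r := by
  subst hr
  exact planar_hasRank w hw hn

/-- all circuits have `n - 2` elements -/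
theorem planar_uniform (w : Fin n → ℚ × ℚ × ℚ) (hw : Generic w) (hn : 3 ≤ n)
    {X : Fin n → SignType} (hX : X ∈ (planar w hw hn).circuits) :
    (Finset.univ.filter fun e => X e ≠ 0).card = n - 2 := by
  obtain ⟨i, j, hij, rfl⟩ := hX
  have h1 : (Finset.univ.filter fun e => sv w (crs (w i) (w j)) e ≠ 0) =
      (({i, j} : Finset (Fin n)))ᶜ := by
    ext e
    rw [Finset.mem_filter, Ne, sv_eq_zero hw hij, Finset.mem_compl, Finset.mem_insert,
      Finset.mem_singleton]
    exact ⟨fun h => h.2, fun h => ⟨Finset.mem_univ _, h⟩⟩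
  rw [h1, Finset.card_compl, Fintype.card_fin, Finset.card_pair hij]

end Pool.Agent.Work.MP_463270_co_h24
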