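import Mathlib
import Pool.Agent.Work.MP_463270_co_h24.Check
import Pool.Agent.Work.MP_463270_co_h24.Planar
import Pool.Agent.Work.MP_463270_co.Upper

set_option autoImplicit false

/-!
Coverage: every reorientation of the planar oriented matroid which is not `k`-neighborly lies
within distance `k` of a set of the table or of a complement of such a set.
-/

namespace Pool.Agent.Work.MP_463270_co_h24

open Pool.Agent.Work.MP_463270_co
open scoped symmDiff

/-- positive part of the determinant of `(1, a), (1, b), (1, c)` -/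
def pP (a b c : ℕ × ℕ) : ℕ := a.1 * b.2 + c.1 * a.2 + b.1 * c.2

/-- negative part of the determinant of `(1, a), (1, b), (1, c)` -/
def pQ (a b c : ℕ × ℕ) : ℕ := b.1 * a.2 + c.1 * b.2 + a.1 * c.2

/-- mask of the points `c` of the list with positive determinant of `(1, a), (1, b), (1, c)` -/
def maskL (a b : ℕ × ℕ) : List (ℕ × ℕ) → ℕ
  | [] => 0
  | c :: t =>
    match Nat.blt (pQ a b c) (pP a b c) with
    | true => 1 + 2 * maskL a b t
    | false => 2 * maskL a b t

theorem maskL_testBit (a b : ℕ × ℕ) (l : List (ℕ × ℕ)) (e : ℕ) (he : e < l.length) :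
    (maskL a b l).testBit e = decide (pQ a b (l.getD e (0, 0)) < pP a b (l.getD e (0, 0))) := by
  induction l generalizing e with
  | nil => simp at he
  | cons c t ih =>
    rw [maskL]
    cases e with
    | zero =>
      rw [List.getD_cons_zero]
      split
      · rename_i h
        rw [Nat.blt_eq] at h
        rw [Nat.testBit_zero]
        simp [h, Nat.add_mod]
      · rename_i h
        have h' : ¬ pQ a b c < pP a b c := by
          intro hc
          rw [← Nat.blt_eq] at hc
          rw [hc] at h
          exact absurd h (by decide)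
        rw [Nat.testBit_zero]
        simp [h']
    | succ e =>
      rw [List.getD_cons_succ]
      have h1 := ih e (by simpa using he)
      split
      · rw [Nat.testBit_succ, show (1 + 2 * maskL a b t) / 2 = maskL a b t by omega]
        exact h1
      · rw [Nat.testBit_succ, show (2 * maskL a b t) / 2 = maskL a b t by omega]
        exact h1

/-- the certificate entry `c` shows that `m` is in the table, up to complement -/
def chk1 (n N LN m c : ℕ) : Bool :=
  Nat.beq (getL n LN (c / 2) ^^^ fl n (c % 2)) m && Nat.blt (c / 2) N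

/-- check of the four completions -/
def chk4 (n N LN a b m c : ℕ) : Bool :=
  chk1 n N LN m (c % 2048) && chk1 n N LN (m ||| a) (c / 2048 % 2048) &&
    chk1 n N LN (m ||| b) (c / 4194304 % 2048) &&
    chk1 n N LN (m ||| a ||| b) (c / 8589934592 % 2048)

/-- check of one row -/
def row (n N LN : ℕ) (all : List (ℕ × ℕ)) (i : ℕ) (p : ℕ × ℕ) : ℕ → List (ℕ × ℕ) → ℕ → Bool
  | _, [], _ => true
  | j, q :: t, c =>
    chk4 n N LN (2 ^ i) (2 ^ j) (maskL p q all) c &&
      row n N LN all i p (j + 1) t (c / 17592186044416)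

/-- check of all rows -/
def rows (n N LN : ℕ) (all : List (ℕ × ℕ)) : ℕ → List (ℕ × ℕ) → List ℕ → Bool
  | _, [], _ => true
  | _, _ :: _, [] => false
  | i, p :: t, c :: cs => row n N LN all i p (i + 1) t c && rows n N LN all (i + 1) t cs

/-- `m` is in the table up to complement -/
def InTable (n N LN m : ℕ) : Prop := ∃ t < N, ∃ b, getL n LN t ^^^ fl n b = m

theorem inTable_of_chk1 {n N LN m c : ℕ} (h : chk1 n N LN m c = true) : InTable n N LN m := by
  rw [chk1, Bool.and_eq_true, Nat.blt_eq] at h
  exact ⟨c / 2, h.2, c % 2, Nat.eq_of_beq_eq_true h.1⟩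

theorem chk4_spec {n N LN a b m c : ℕ} (h : chk4 n N LN a b m c = true) :
    InTable n N LN m ∧ InTable n N LN (m ||| a) ∧ InTable n N LN (m ||| b) ∧
      InTable n N LN (m ||| a ||| b) := by
  rw [chk4, Bool.and_eq_true, Bool.and_eq_true, Bool.and_eq_true] at h
  exact ⟨inTable_of_chk1 h.1.1.1, inTable_of_chk1 h.1.1.2, inTable_of_chk1 h.1.2,
    inTable_of_chk1 h.2⟩

theorem row_spec {n N LN : ℕ} {all : List (ℕ × ℕ)} {i : ℕ} {p : ℕ × ℕ} :
    ∀ (l : List (ℕ × ℕ)) (j c : ℕ), row n N LN all i p j l c = true →
      ∀ b < l.length, ∃ c', chk4 n N LN (2 ^ i) (2 ^ (j + b)) (maskL p (l.getD b (0, 0)) all) c'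
        = true := by
  intro l
  induction l with
  | nil => intro j c _ b hb; simp at hb
  | cons q t ih =>
    intro j c h b hb
    rw [row, Bool.and_eq_true] at h
    cases b with
    | zero => exact ⟨c, h.1⟩
    | succ b =>
      obtain ⟨c', hc'⟩ := ih (j + 1) _ h.2 b (by simpa using hb)
      refine ⟨c', ?_⟩
      rw [List.getD_cons_succ, show j + (b + 1) = j + 1 + b by ring]
      exact hc'

theorem rows_spec {n N LN : ℕ} {all : List (ℕ × ℕ)} :
    ∀ (l : List (ℕ × ℕ)) (i : ℕ) (cs : List ℕ), rows n N LN all i l cs = true →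
      ∀ a b, a < b → b < l.length → ∃ c', chk4 n N LN (2 ^ (i + a)) (2 ^ (i + b))
        (maskL (l.getD a (0, 0)) (l.getD b (0, 0)) all) c' = true := by
  intro l
  induction l with
  | nil => intro i cs _ a b _ hb; simp at hb
  | cons p t ih =>
    intro i cs h a b hab hb
    cases cs with
    | nil => rw [rows] at h; exact absurd h (by decide)
    | cons c cs =>
      rw [rows, Bool.and_eq_true] at h
      obtain ⟨b, rfl⟩ : ∃ b', b = b' + 1 := ⟨b - 1, by omega⟩
      cases a with
      | zero =>
        obtain ⟨c', hc'⟩ := row_spec t (i + 1) c h.1 b (by simpa using hb)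
        refine ⟨c', ?_⟩
        rw [List.getD_cons_succ, List.getD_cons_zero, add_zero,
          show i + (b + 1) = i + 1 + b by ring]
        exact hc'
      | succ a =>
        obtain ⟨c', hc'⟩ := ih (i + 1) cs h.2 a b (by omega) (by simpa using hb)
        refine ⟨c', ?_⟩
        rw [List.getD_cons_succ, List.getD_cons_succ, show i + (b + 1) = i + 1 + b by ring,
          show i + (a + 1) = i + 1 + a by ring]
        exact hc'

/-- nondegeneracy of a pair with the rest of the list -/
def gen1 (a b : ℕ × ℕ) : List (ℕ × ℕ) → Bool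
  | [] => true
  | c :: t => !(Nat.beq (pP a b c) (pQ a b c)) && gen1 a b t

/-- nondegeneracy of a point with the rest of the list -/
def gen2 (a : ℕ × ℕ) : List (ℕ × ℕ) → Bool
  | [] => true
  | b :: t => gen1 a b t && gen2 a t

/-- no three points of the list are collinear -/
def gen3 : List (ℕ × ℕ) → Bool
  | [] => true
  | a :: t => gen2 a t && gen3 t

theorem gen1_spec {a b : ℕ × ℕ} : ∀ l : List (ℕ × ℕ), gen1 a b l = true →
    ∀ e < l.length, pP a b (l.getD e (0, 0)) ≠ pQ a b (l.getD e (0, 0)) := by
  intro l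
  induction l with
  | nil => intro _ e he; simp at he
  | cons c t ih =>
    intro h e he
    rw [gen1, Bool.and_eq_true] at h
    cases e with
    | zero =>
      rw [List.getD_cons_zero]
      intro h0
      have h1 := h.1
      rw [h0, Nat.beq_refl] at h1
      exact absurd h1 (by decide)
    | succ e =>
      rw [List.getD_cons_succ]
      exact ih h.2 e (by simpa using he)

theorem gen2_spec {a : ℕ × ℕ} : ∀ l : List (ℕ × ℕ), gen2 a l = true →
    ∀ j e, j < e → e < l.length →
      pP a (l.getD j (0, 0)) (l.getD e (0, 0)) ≠ pQ a (l.getD j (0, 0)) (l.getD e (0, 0)) := by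
  intro l
  induction l with
  | nil => intro _ j e _ he; simp at he
  | cons c t ih =>
    intro h j e hje he
    rw [gen2, Bool.and_eq_true] at h
    obtain ⟨e, rfl⟩ : ∃ e', e = e' + 1 := ⟨e - 1, by omega⟩
    rw [List.getD_cons_succ]
    cases j with
    | zero =>
      rw [List.getD_cons_zero]
      exact gen1_spec t h.1 e (by simpa using he)
    | succ j =>
      rw [List.getD_cons_succ]
      exact ih h.2 j e (by omega) (by simpa using he)

theorem gen3_spec : ∀ l : List (ℕ × ℕ), gen3 l = true →
    ∀ i j e, i < j → j < e → e < l.length →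
      pP (l.getD i (0, 0)) (l.getD j (0, 0)) (l.getD e (0, 0)) ≠
        pQ (l.getD i (0, 0)) (l.getD j (0, 0)) (l.getD e (0, 0)) := by
  intro l
  induction l with
  | nil => intro _ i j e _ _ he; simp at he
  | cons c t ih =>
    intro h i j e hij hje he
    rw [gen3, Bool.and_eq_true] at h
    obtain ⟨e, rfl⟩ : ∃ e', e = e' + 1 := ⟨e - 1, by omega⟩
    obtain ⟨j, rfl⟩ : ∃ j', j = j' + 1 := ⟨j - 1, by omega⟩
    rw [List.getD_cons_succ, List.getD_cons_succ]
    cases i with
    | zero =>
      rw [List.getD_cons_zero]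
      exact gen2_spec t h.1 j e (by omega) (by simpa using he)
    | succ i =>
      rw [List.getD_cons_succ]
      exact ih h.2 i j e (by omega) (by omega) (by simpa using he)

/-- the vector configuration of a list of points of the plane -/
def vec (n : ℕ) (l : List (ℕ × ℕ)) (e : Fin n) : ℚ × ℚ × ℚ :=
  (1, ((l.getD e.val (0, 0)).1 : ℚ), ((l.getD e.val (0, 0)).2 : ℚ))

theorem dot_crs_vec (n : ℕ) (l : List (ℕ × ℕ)) (i j e : Fin n) :
    dot (crs (vec n l i) (vec n l j)) (vec n l e) =
      (pP (l.getD i.val (0, 0)) (l.getD j.val (0, 0)) (l.getD e.val (0, 0)) : ℚ) -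
        (pQ (l.getD i.val (0, 0)) (l.getD j.val (0, 0)) (l.getD e.val (0, 0)) : ℚ) := by
  simp only [dot, crs, vec, pP, pQ]
  push_cast
  ring

theorem dot_crs_cyc (a b c : ℚ × ℚ × ℚ) : dot (crs a b) c = dot (crs b c) a := by
  unfold dot crs; simp only; ring

theorem dot_crs_swap (a b c : ℚ × ℚ × ℚ) : dot (crs b a) c = -dot (crs a b) c := by
  unfold dot crs; simp only; ring

theorem generic_vec {n : ℕ} {l : List (ℕ × ℕ)} (hl : l.length = n) (h : gen3 l = true) :
    Generic (vec n l) := by
  have key : ∀ i j e : Fin n, i < j → j < e →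
      dot (crs (vec n l i) (vec n l j)) (vec n l e) ≠ 0 := by
    intro i j e hij hje
    rw [dot_crs_vec]
    intro h0
    have h1 := sub_eq_zero.1 h0
    exact gen3_spec l h i.val j.val e.val hij hje (by rw [hl]; exact e.2) (by exact_mod_cast h1)
  intro i j e hij hie hje
  rcases lt_or_gt_of_ne hij with h1 | h1 <;> rcases lt_or_gt_of_ne hie with h2 | h2 <;>
    rcases lt_or_gt_of_ne hje with h3 | h3
  · exact key i j e h1 h3
  · -- i < e < j
    rw [dot_crs_cyc, dot_crs_cyc, dot_crs_swap, neg_ne_zero]
    exact key i e j h2 h3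
  · exact absurd (h1.trans h3) (not_lt.2 h2.le)
  · -- e < i < j
    rw [dot_crs_cyc, dot_crs_cyc]
    exact key e i j h2 h1
  · -- j < i < e
    rw [dot_crs_swap, neg_ne_zero]
    exact key j i e h1 h2
  · exact absurd (h1.trans h2) (not_lt.2 h3.le)
  · -- j < e < i
    rw [dot_crs_cyc]
    exact key j e i h3 h2
  · -- e < j < i
    rw [dot_crs_cyc, dot_crs_swap, neg_ne_zero]
    exact key e j i h3 h1

end Pool.Agent.Work.MP_463270_co_h24
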