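import Mathlib
import Pool.Agent.Work.MP_463270_co_h24.Cov

set_option autoImplicit false

/-!
Lower bound for the number of `k`-neighborly reorientations of a planar oriented matroid.
-/

namespace Pool.Agent.Work.MP_463270_co_h24

open Pool.Agent.Work.MP_463270_co
open Pool.Agent.Work.MP_463270_co.OrientedMatroid
open scoped symmDiff

/-- the table entries as sets -/
def tab (n LN t : ℕ) : Finset (Fin n) := toSet n (getL n LN t)

theorem inTable_sets {n N LN m : ℕ} (h : InTable n N LN m) :
    ∃ t < N, (toSet n m = tab n LN t ∨ (toSet n m)ᶜ = tab n LN t) := by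
  obtain ⟨t, ht, b, hb⟩ := h
  refine ⟨t, ht, ?_⟩
  cases b with
  | zero =>
    left
    rw [← hb]
    simp only [fl]
    rw [Nat.xor_zero]
    rfl
  | succ b =>
    right
    rw [← hb]
    simp only [fl]
    rw [toSet_xor_full, compl_compl]
    rfl

/-- the elements on which the reoriented sign vector is positive -/
noncomputable def posSet {n : ℕ} (A : Finset (Fin n)) (X : Fin n → SignType) : Finset (Fin n) := by
  classical
  exact Finset.univ.filter fun e => OrientedMatroid.flip (A : Set (Fin n)) X e = 1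

theorem mem_posSet {n : ℕ} (A : Finset (Fin n)) (X : Fin n → SignType) (e : Fin n) :
    e ∈ posSet A X ↔ (e ∉ A ∧ X e = 1) ∨ (e ∈ A ∧ X e = -1) := by
  classical
  rw [posSet, Finset.mem_filter]
  by_cases h : e ∈ A
  · rw [flip_of_mem (by exact_mod_cast h)]
    simp [h, neg_eq_one_iff]
  · rw [flip_of_notMem (by exact_mod_cast h)]
    simp [h]

theorem toSet_or_pow {n m : ℕ} (i : Fin n) : toSet n (m ||| 2 ^ i.val) = insert i (toSet n m) := by
  ext e
  rw [mem_toSet, Finset.mem_insert, mem_toSet, Nat.testBit_or, Nat.testBit_two_pow]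
  rw [Bool.or_eq_true, decide_eq_true_eq]
  constructor
  · rintro (h | h)
    · exact Or.inr h
    · exact Or.inl (Fin.ext h.symm)
  · rintro (h | h)
    · exact Or.inr (by rw [h])
    · exact Or.inl h

/-- the main covering lemma for `i < j` -/
theorem cover_lt {n N LN : ℕ} {l : List (ℕ × ℕ)} (hl : l.length = n) (hgen : gen3 l = true)
    {cs : List ℕ} (hrows : rows n N LN l 0 l cs = true) {i j : Fin n} (hij : i < j)
    (A : Finset (Fin n)) :
    ∃ t < N,
      (A = tab n LN t ∆ posSet A (sv (vec n l) (crs (vec n l i) (vec n l j))) ∨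
        Aᶜ = tab n LN t ∆ posSet A (sv (vec n l) (crs (vec n l i) (vec n l j)))) := by
  classical
  have hw := generic_vec hl hgen
  obtain ⟨c', hc'⟩ := rows_spec l 0 cs hrows i.val j.val hij (by rw [hl]; exact j.2)
  rw [zero_add, zero_add] at hc'
  set m := maskL (l.getD i.val (0, 0)) (l.getD j.val (0, 0)) l with hm
  set X := sv (vec n l) (crs (vec n l i) (vec n l j)) with hX
  have hne : i ≠ j := ne_of_lt hij
  -- bits of the mask
  have hbit : ∀ e : Fin n, e ∈ toSet n m ↔ X e = 1 := by
    intro e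
    rw [mem_toSet, hm, maskL_testBit _ _ _ _ (by rw [hl]; exact e.2), decide_eq_true_eq, hX, sv,
      sign_eq_one_iff, dot_crs_vec, sub_pos, Nat.cast_lt]
  have hXi : X i = 0 := (sv_eq_zero hw hne i).2 (Or.inl rfl)
  have hXj : X j = 0 := (sv_eq_zero hw hne j).2 (Or.inr rfl)
  have hXe : ∀ e, e ≠ i → e ≠ j → X e = 1 ∨ X e = -1 := by
    intro e h1 h2
    have h3 : X e ≠ 0 := by
      intro h0
      rcases (sv_eq_zero hw hne e).1 h0 with h | h
      · exact h1 h
      · exact h2 h
    revert h3
    cases X e <;> simp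
  have hi : i ∉ toSet n m := by rw [hbit, hXi]; decide
  have hj : j ∉ toSet n m := by rw [hbit, hXj]; decide
  -- the set with the right intersection with `{i, j}`
  have key : ∀ T : Finset (Fin n), (∀ e, e ≠ i → e ≠ j → (e ∈ T ↔ e ∈ toSet n m)) →
      (i ∈ T ↔ i ∈ A) → (j ∈ T ↔ j ∈ A) → A = T ∆ posSet A X := by
    intro T h1 h2 h3
    ext e
    rw [Finset.mem_symmDiff, mem_posSet]
    by_cases hei : e = i
    · rw [hei, hXi]
      simp [h2]
    · by_cases hej : e = j
      · rw [hej, hXj]
        simp [h3]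
      · rw [h1 e hei hej, hbit]
        rcases hXe e hei hej with h | h
        · rw [h]; by_cases hA : e ∈ A <;> simp [hA]
        · rw [h]; by_cases hA : e ∈ A <;> simp [hA]
  have fin : ∀ m' : ℕ, InTable n N LN m' → A = toSet n m' ∆ posSet A X →
      ∃ t < N, (A = tab n LN t ∆ posSet A X ∨ Aᶜ = tab n LN t ∆ posSet A X) := by
    intro m' h1 h2
    obtain ⟨t, ht, h3⟩ := inTable_sets h1
    refine ⟨t, ht, ?_⟩
    rcases h3 with h3 | h3
    · left; rw [← h3]; exact h2
    · right
      rw [← h3, compl_symmDiff_left, ← h2]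
  obtain ⟨k1, k2, k3, k4⟩ := chk4_spec hc'
  by_cases hiA : i ∈ A <;> by_cases hjA : j ∈ A
  · refine fin _ k4 (key _ ?_ ?_ ?_)
    · intro e h1 h2
      rw [toSet_or_pow, toSet_or_pow, Finset.mem_insert, Finset.mem_insert]
      simp [h1, h2]
    · rw [toSet_or_pow, toSet_or_pow]; simp [hiA]
    · rw [toSet_or_pow, toSet_or_pow]; simp [hjA]
  · refine fin _ k2 (key _ ?_ ?_ ?_)
    · intro e h1 h2
      rw [toSet_or_pow, Finset.mem_insert]
      simp [h1]
    · rw [toSet_or_pow]; simp [hiA]
    · rw [toSet_or_pow, Finset.mem_insert]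
      simp [hjA, hj, hne.symm]
  · refine fin _ k3 (key _ ?_ ?_ ?_)
    · intro e h1 h2
      rw [toSet_or_pow, Finset.mem_insert]
      simp [h2]
    · rw [toSet_or_pow, Finset.mem_insert]
      simp [hiA, hi, hne]
    · rw [toSet_or_pow]; simp [hjA]
  · refine fin _ k1 (key _ ?_ ?_ ?_)
    · intro e _ _; rfl
    · simp [hiA, hi]
    · simp [hjA, hj]

theorem posSet_compl {n : ℕ} (A : Finset (Fin n)) (X : Fin n → SignType) :
    posSet Aᶜ (-X) = posSet A X := by
  ext e
  rw [mem_posSet, mem_posSet, Finset.mem_compl, Pi.neg_apply, neg_eq_one_iff,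
    neg_eq_neg_one_iff, not_not]
  tauto

theorem cover {n N LN : ℕ} {l : List (ℕ × ℕ)} (hl : l.length = n) (hgen : gen3 l = true)
    {cs : List ℕ} (hrows : rows n N LN l 0 l cs = true) {i j : Fin n} (hij : i ≠ j)
    (A : Finset (Fin n)) :
    ∃ t < N,
      (A = tab n LN t ∆ posSet A (sv (vec n l) (crs (vec n l i) (vec n l j))) ∨
        Aᶜ = tab n LN t ∆ posSet A (sv (vec n l) (crs (vec n l i) (vec n l j)))) := by
  rcases lt_or_gt_of_ne hij with h | h
  · exact cover_lt hl hgen hrows h A
  · obtain ⟨t, ht, h1⟩ := cover_lt hl hgen hrows h Aᶜ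
    refine ⟨t, ht, ?_⟩
    rw [sv_swap, posSet_compl, compl_compl] at h1
    exact h1.symm

/-- Lower bound for the number of neighborly reorientations. -/
theorem planar_count {n N LN k f : ℕ} (hn : n ≤ 8 * f) (h3 : 3 ≤ n) {l : List (ℕ × ℕ)}
    (hl : l.length = n) (hgen : gen3 l = true)
    {cs : List ℕ} (hrows : rows n N LN l 0 l cs = true) (Rf : ℕ → ℕ) :
    2 ^ n ≤ (planar (vec n l) (generic_vec hl hgen) h3).neighborlyCount k +
      2 * ∑ i ∈ Finset.range N, one n f N LN k i (Rf i) := by
  classical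
  set M := planar (vec n l) (generic_vec hl hgen) h3 with hM
  rw [neighborlyCount_eq]
  set bad : Finset (Finset (Fin n)) := (M.family k)ᶜ with hbad
  have hcard : bad.card = 2 ^ n - (M.family k).card := by
    rw [hbad, Finset.card_compl, Fintype.card_finset, Fintype.card_fin]
  have hle : bad.card ≤ 2 * ∑ i ∈ Finset.range N, one n f N LN k i (Rf i) := by
    refine card_le_canonical (fun t => tab n LN t) N k bad ?_
      (fun i => one n f N LN k i (Rf i)) ?_
    · intro A hA
      rw [hbad, Finset.mem_compl, mem_family] at hA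
      have h1 : ¬ ∀ X ∈ (M.reorient (A : Set (Fin n))).circuits,
          k + 1 ≤ (Finset.univ.filter fun e => X e = 1).card := fun h => hA (neighborly_of_circuits h)
      push Not at h1
      obtain ⟨X, hX, hlt⟩ := h1
      obtain ⟨Z, hZ, rfl⟩ := hX
      obtain ⟨i, j, hij, rfl⟩ := hZ
      obtain ⟨t, ht, h4⟩ := cover hl hgen hrows hij A
      refine ⟨t, ht, _, ?_, h4⟩
      have h5 : posSet A (sv (vec n l) (crs (vec n l i) (vec n l j))) =
          Finset.univ.filter fun e => OrientedMatroid.flip (A : Set (Fin n))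
            (sv (vec n l) (crs (vec n l i) (vec n l j))) e = 1 := by
        rw [posSet]
      rw [h5]
      exact Nat.lt_succ_iff.1 hlt
    · intro i _ G hG
      exact one_spec hn (Rf i) G hG
  omega

end Pool.Agent.Work.MP_463270_co_h24
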