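import Mathlib
import Pool.Agent.Work.MP_463270_co.Upper
import Pool.Agent.Work.MP_463270_co.Alternating
import Pool.Agent.Work.MP_463270_co_h24.Auto
import Pool.Agent.Work.MP_463270_co_h24.Bridge

set_option autoImplicit false

/-!
Upper bound for the number of `k`-neighborly reorientations of the alternating oriented matroid
of rank `n - 3` on `n` elements through the number of words accepted by the automaton.
-/

namespace Pool.Agent.Work.MP_463270_co_h24

open Pool.Agent.Work.MP_463270_co
open Pool.Agent.Work.MP_463270_co.OrientedMatroid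

/-- parity of a position -/
def par (e : ℕ) : Bool := decide (e % 2 = 1)

theorem par_succ (e : ℕ) : par (e + 1) = !par e := by
  unfold par
  rcases Nat.mod_two_eq_zero_or_one e with h | h
  · have h1 : (e + 1) % 2 = 1 := by omega
    simp [h, h1]
  · have h1 : (e + 1) % 2 = 0 := by omega
    simp [h, h1]

/-- the circuit with zeros at `p` and `q` -/
def altX (n : ℕ) (l : Bool) (p q : ℕ) (e : Fin n) : SignType :=
  if e.val = p ∨ e.val = q then 0 else if xor (pat l p q e.val) (par e.val) = true then 1 else -1

theorem altX_eq_zero {n : ℕ} {l : Bool} {p q : ℕ} (e : Fin n) :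
    altX n l p q e = 0 ↔ (e.val = p ∨ e.val = q) := by
  unfold altX
  by_cases h : e.val = p ∨ e.val = q
  · simp [h]
  · rw [if_neg h]
    by_cases h2 : xor (pat l p q e.val) (par e.val) = true
    · rw [if_pos h2]; simp [h]
    · rw [if_neg h2]; simp [h]

theorem altX_neg {n : ℕ} {l : Bool} {p q : ℕ} (i j : Fin n) (hi : altX n l p q i ≠ 0)
    (hj : altX n l p q j ≠ 0)
    (h : xor (pat l p q j.val) (par j.val) = !(xor (pat l p q i.val) (par i.val))) :
    altX n l p q j = -altX n l p q i := by
  have hi' : ¬ (i.val = p ∨ i.val = q) := fun h0 => hi ((altX_eq_zero i).2 h0)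
  have hj' : ¬ (j.val = p ∨ j.val = q) := fun h0 => hj ((altX_eq_zero j).2 h0)
  unfold altX
  rw [if_neg hi', if_neg hj', h]
  cases xor (pat l p q i.val) (par i.val) <;> simp

theorem altX_mem {n : ℕ} (hn : 3 ≤ n) (l : Bool) {p q : ℕ} (hpq : p < q) (hq : q < n) :
    altX n l p q ∈ altCircuits (n - 3) n := by
  constructor
  · have h1 : (Finset.univ.filter fun e : Fin n => altX n l p q e ≠ 0) =
        (({⟨p, hpq.trans hq⟩, ⟨q, hq⟩} : Finset (Fin n)))ᶜ := by
      ext e
      rw [Finset.mem_filter, Finset.mem_compl, Finset.mem_insert, Finset.mem_singleton, Ne,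
        altX_eq_zero]
      constructor
      · rintro ⟨_, h⟩ (h' | h')
        · exact h (Or.inl (congrArg Fin.val h'))
        · exact h (Or.inr (congrArg Fin.val h'))
      · intro h
        refine ⟨Finset.mem_univ _, ?_⟩
        rintro (h' | h')
        · exact h (Or.inl (Fin.ext h'))
        · exact h (Or.inr (Fin.ext h'))
    rw [h1, Finset.card_compl, Fintype.card_fin, Finset.card_pair]
    · omega
    · intro h
      have := congrArg Fin.val h
      simp only at this
      omega
  · intro i j hij hi hj hz
    have hi' : ¬ (i.val = p ∨ i.val = q) := fun h0 => hi ((altX_eq_zero i).2 h0)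
    have hj' : ¬ (j.val = p ∨ j.val = q) := fun h0 => hj ((altX_eq_zero j).2 h0)
    have hz' : ∀ m, i.val < m → m < j.val → m = p ∨ m = q := by
      intro m h1 h2
      have h3 := hz ⟨m, h2.trans j.2⟩ h1 h2
      exact (altX_eq_zero _).1 h3
    push Not at hi' hj'
    have hij' : i.val < j.val := hij
    refine altX_neg i j hi hj ?_
    -- the possible gaps
    have hgap : j.val ≤ i.val + 3 := by
      by_contra hcon
      push Not at hcon
      have h1 := hz' (i.val + 1) (by omega) (by omega)
      have h2 := hz' (i.val + 2) (by omega) (by omega)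
      have h3 := hz' (i.val + 3) (by omega) (by omega)
      omega
    have hcase : (j.val = i.val + 1 ∧ pat l p q j.val = pat l p q i.val) ∨
        (j.val = i.val + 2 ∧ pat l p q j.val = !pat l p q i.val) ∨
        (j.val = i.val + 3 ∧ pat l p q j.val = pat l p q i.val) := by
      have h0 : j.val = i.val + 1 ∨ j.val = i.val + 2 ∨ j.val = i.val + 3 := by omega
      rcases h0 with h0 | h0 | h0
      · left
        refine ⟨h0, ?_⟩
        unfold pat
        by_cases h1 : i.val < p
        · have h2 : j.val < p := by omega
          simp [h1, h2]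
        · have h2 : ¬ j.val < p := by omega
          by_cases h3 : i.val < q
          · have h4 : j.val < q := by omega
            simp [h1, h2, h3, h4]
          · have h4 : ¬ j.val < q := by omega
            simp [h1, h2, h3, h4]
      · right; left
        refine ⟨h0, ?_⟩
        have h1 := hz' (i.val + 1) (by omega) (by omega)
        unfold pat
        rcases h1 with h1 | h1
        · have h2 : i.val < p := by omega
          have h3 : ¬ j.val < p := by omega
          have h4 : j.val < q := by omega
          simp [h2, h3, h4]
        · have h2 : ¬ i.val < p := by omega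
          have h3 : ¬ j.val < p := by omega
          have h4 : i.val < q := by omega
          have h5 : ¬ j.val < q := by omega
          simp [h2, h3, h4, h5]
      · right; right
        refine ⟨h0, ?_⟩
        have h1 := hz' (i.val + 1) (by omega) (by omega)
        have h2 := hz' (i.val + 2) (by omega) (by omega)
        have h3 : i.val < p := by omega
        have h4 : ¬ j.val < p := by omega
        have h5 : ¬ j.val < q := by omega
        unfold pat
        simp [h3, h4, h5]
    rcases hcase with ⟨h1, h2⟩ | ⟨h1, h2⟩ | ⟨h1, h2⟩
    · rw [h2, h1, par_succ]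
      cases pat l p q i.val <;> cases par i.val <;> rfl
    · rw [h2, h1, show i.val + 2 = i.val + 1 + 1 by ring, par_succ, par_succ]
      cases pat l p q i.val <;> cases par i.val <;> rfl
    · rw [h2, h1, show i.val + 3 = i.val + 1 + 1 + 1 by ring, par_succ, par_succ, par_succ]
      cases pat l p q i.val <;> cases par i.val <;> rfl

/-- every pattern is represented by a circuit -/
theorem exists_pq {n : ℕ} (hn : 2 ≤ n) (l : Bool) {a b : ℕ} (hab : a ≤ b) (hb : b ≤ n) :
    ∃ p q, p < q ∧ q < n ∧ ∀ e < n, e ≠ p → e ≠ q → pat l a b e = pat l p q e := by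
  rcases Nat.lt_or_ge a b with h | h
  · rcases Nat.lt_or_ge b n with h' | h'
    · exact ⟨a, b, h, h', fun e _ _ _ => rfl⟩
    · have hbn : b = n := le_antisymm hb h'
      rcases Nat.lt_or_ge a (n - 1) with h'' | h''
      · refine ⟨a, n - 1, h'', by omega, fun e he h1 h2 => ?_⟩
        unfold pat
        by_cases h3 : e < a
        · simp [h3]
        · have h4 : e < b := by omega
          have h5 : e < n - 1 := by omega
          simp [h3, h4, h5]
      · refine ⟨n - 2, n - 1, by omega, by omega, fun e he h1 h2 => ?_⟩
        have h3 : e < a := by omega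
        have h4 : e < n - 2 := by omega
        unfold pat
        simp [h3, h4]
  · have hab' : a = b := le_antisymm hab h
    refine ⟨n - 2, n - 1, by omega, by omega, fun e he h1 h2 => ?_⟩
    have h4 : e < n - 2 := by omega
    unfold pat
    rw [hab']
    by_cases h5 : e < b
    · simp [h5, h4]
    · simp [h5, h4]

/-- the word as a function on all natural numbers -/
def ext {n : ℕ} (u : Fin n → Bool) (e : ℕ) : Bool := if h : e < n then u ⟨e, h⟩ else false

/-- the set of a word -/
def setOf {n : ℕ} (u : Fin n → Bool) : Finset (Fin n) :=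
  Finset.univ.filter fun e => xor (u e) (par e.val) = true

theorem setOf_injective {n : ℕ} : Function.Injective (setOf (n := n)) := by
  intro u v h
  funext e
  have h1 : e ∈ setOf u ↔ e ∈ setOf v := by rw [h]
  simp only [setOf, Finset.mem_filter, Finset.mem_univ, true_and] at h1
  revert h1
  cases u e <;> cases v e <;> cases par e.val <;> simp

theorem not_neighborly_of_acc {n k : ℕ} (hn : 3 ≤ n) (u : Fin n → Bool)
    (h : acc (k + 1) (run (k + 1) (ext u) n) = true) :
    ¬ ((alternating (n - 3) n).reorient (setOf u : Set (Fin n))).Neighborly k := by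
  classical
  intro hN
  obtain ⟨l, a, b, hab, hb, hd⟩ := exists_pat_of_acc h
  obtain ⟨p, q, hpq, hq, hpat⟩ := exists_pq (by omega : 2 ≤ n) l hab hb
  have hmem : OrientedMatroid.flip (setOf u : Set (Fin n)) (altX n l p q) ∈
      ((alternating (n - 3) n).reorient (setOf u : Set (Fin n))).circuits :=
    ⟨altX n l p q, altX_mem hn l hpq hq, rfl⟩
  have h1 := neighborly_circuit_pos hN hmem
  have h2 : (Finset.univ.filter fun e =>
      OrientedMatroid.flip (setOf u : Set (Fin n)) (altX n l p q) e = 1).card ≤
      dst (ext u) (pat l a b) n := by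
    unfold dst
    rw [← Finset.card_map Fin.valEmbedding]
    refine Finset.card_le_card ?_
    intro x hx
    rw [Finset.mem_map] at hx
    obtain ⟨e, he, rfl⟩ := hx
    rw [Finset.mem_filter] at he
    have he' : e ∈ posSet (setOf u) (altX n l p q) := by
      rw [posSet, Finset.mem_filter]; exact ⟨Finset.mem_univ _, he.2⟩
    rw [mem_posSet] at he'
    have hne : ¬ (e.val = p ∨ e.val = q) := by
      intro h0
      have h3 := (altX_eq_zero (n := n) (l := l) (p := p) (q := q) e).2 h0
      rw [h3] at he'
      rcases he' with ⟨_, h4⟩ | ⟨_, h4⟩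
      · exact absurd h4 (by decide)
      · exact absurd h4 (by decide)
    rw [Finset.mem_filter, Finset.mem_range]
    refine ⟨e.2, ?_⟩
    have h5 : ext u (Fin.valEmbedding e) = u e := by
      simp [ext]
    rw [h5]
    have hne' := hne
    push Not at hne'
    have h6 := hpat e.val e.2 hne'.1 hne'.2
    have h7 : pat l a b (Fin.valEmbedding e) = pat l p q e.val := h6
    rw [h7]
    have h8 : e ∈ setOf u ↔ xor (u e) (par e.val) = true := by simp [setOf]
    rw [h8] at he'
    unfold altX at he'
    rw [if_neg hne] at he'
    revert he'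
    cases u e <;> cases pat l p q e.val <;> cases par e.val <;> simp
  omega

/-- Upper bound for the number of neighborly reorientations of the alternating matroid. -/
theorem alternating_count {n k : ℕ} (hn : 3 ≤ n) :
    (alternating (n - 3) n).neighborlyCount k + cnt (k + 1) n (⟨0, 0, 0⟩, ⟨0, 0, 0⟩) ≤ 2 ^ n := by
  classical
  rw [neighborlyCount_eq, ← card_runF]
  have h1 : ((Finset.univ.filter fun u : Fin n → Bool =>
      acc (k + 1) (runF (k + 1) n u (⟨0, 0, 0⟩, ⟨0, 0, 0⟩)) = true).image setOf) ⊆
      ((alternating (n - 3) n).family k)ᶜ := by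
    intro A hA
    rw [Finset.mem_image] at hA
    obtain ⟨u, hu, rfl⟩ := hA
    rw [Finset.mem_filter] at hu
    rw [Finset.mem_compl, mem_family]
    refine not_neighborly_of_acc hn u ?_
    have h2 := runF_eq_run (k + 1) (ext u) n 0
    rw [zero_add] at h2
    rw [← h2]
    have h3 : (fun i : Fin n => ext u (0 + i.val)) = u := by
      funext i
      simp [ext]
    rw [h3]
    exact hu.2
  have h2 := Finset.card_le_card h1
  rw [Finset.card_image_of_injective _ setOf_injective, Finset.card_compl, Fintype.card_finset,
    Fintype.card_fin] at h2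
  have h3 : ((alternating (n - 3) n).family k).card ≤ 2 ^ n := by
    refine (Finset.card_le_univ _).trans ?_
    rw [Fintype.card_finset, Fintype.card_fin]
  omega

theorem alternating_count' {n k c r : ℕ} (hn : 3 ≤ n) (hc : k + 1 = c) (hr : n - 3 = r) :
    (alternating r n).neighborlyCount k + cnt c n (⟨0, 0, 0⟩, ⟨0, 0, 0⟩) ≤ 2 ^ n := by
  subst hc hr
  exact alternating_count hn

end Pool.Agent.Work.MP_463270_co_h24
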