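import Mathlib
import Pool.Agent.Work.MP_463270_co_h24.Auto

set_option autoImplicit false

/-!
Evaluation of the number of accepted words of length 40 (cap 4) by the kernel.
-/

namespace Pool.Agent.Work.MP_463270_co_h24

/-- 48-bit field of a packed table -/
def getW (X i : ℕ) : ℕ := (X >>> (48 * i)) % 2 ^ 48

/-- next table of values -/
def build (X : ℕ) : List (ℕ × ℕ) → ℕ
  | [] => 0
  | p :: t => (getW X p.1 + getW X p.2) % 2 ^ 48 + build X t * 2 ^ 48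

/-- iterated tables -/
def iter (tr : List (ℕ × ℕ)) (X0 : ℕ) : ℕ → ℕ
  | 0 => X0
  | m + 1 => build (iter tr X0 m) tr

theorem getW_build (X : ℕ) : ∀ (l : List (ℕ × ℕ)) (i : ℕ), i < l.length →
    getW (build X l) i = (getW X (l.getD i (0, 0)).1 + getW X (l.getD i (0, 0)).2) % 2 ^ 48 := by
  intro l
  induction l with
  | nil => intro i hi; simp at hi
  | cons p t ih =>
    intro i hi
    have hv : (getW X p.1 + getW X p.2) % 2 ^ 48 < 2 ^ 48 := Nat.mod_lt _ (by positivity)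
    rw [build]
    cases i with
    | zero =>
      rw [List.getD_cons_zero]
      generalize (getW X p.1 + getW X p.2) % 2 ^ 48 = v at hv
      rw [getW, mul_zero, Nat.shiftRight_zero, Nat.add_mul_mod_self_right, Nat.mod_eq_of_lt hv]
    | succ i =>
      rw [List.getD_cons_succ, ← ih i (by simpa using hi)]
      generalize (getW X p.1 + getW X p.2) % 2 ^ 48 = v at hv
      generalize build X t = Y
      rw [getW, getW, Nat.shiftRight_eq_div_pow,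
        Nat.shiftRight_eq_div_pow, show 48 * (i + 1) = 48 + 48 * i by ring, pow_add,
        ← Nat.div_div_eq_div_mul]
      rw [Nat.add_mul_div_right _ _ (by positivity), Nat.div_eq_of_lt hv, zero_add]

/-- value of an optional state -/
def val (c m : ℕ) : Option (Sd × Sd) → ℕ
  | none => 0
  | some s => cnt c m s

/-- the table is sound -/
def Sound (c : ℕ) (sts : List (Option (Sd × Sd))) (tr : List (ℕ × ℕ)) (X0 : ℕ) : Prop :=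
  ∀ i < sts.length,
    (tr.getD i (0, 0)).1 < sts.length ∧ (tr.getD i (0, 0)).2 < sts.length ∧
    (sts.getD (tr.getD i (0, 0)).1 none = none ∨
      sts.getD (tr.getD i (0, 0)).1 none = (sts.getD i none).map (fun s => step c s false)) ∧
    (sts.getD (tr.getD i (0, 0)).2 none = none ∨
      sts.getD (tr.getD i (0, 0)).2 none = (sts.getD i none).map (fun s => step c s true)) ∧
    getW X0 i ≤ (match sts.getD i none with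
      | none => 0
      | some s => if acc c s = true then 1 else 0)

theorem val_succ (c m : ℕ) (o : Option (Sd × Sd)) :
    val c (m + 1) o = val c m (o.map (fun s => step c s false)) +
      val c m (o.map (fun s => step c s true)) := by
  cases o <;> rfl

theorem val_le {c m : ℕ} {o o' : Option (Sd × Sd)} (h : o = none ∨ o = o') :
    val c m o ≤ val c m o' := by
  rcases h with rfl | rfl
  · exact Nat.zero_le _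
  · exact le_rfl

theorem getW_iter_le {c : ℕ} {sts : List (Option (Sd × Sd))} {tr : List (ℕ × ℕ)} {X0 : ℕ}
    (hlen : tr.length = sts.length) (h : Sound c sts tr X0) :
    ∀ m, ∀ i < sts.length, getW (iter tr X0 m) i ≤ val c m (sts.getD i none) := by
  intro m
  induction m with
  | zero =>
    intro i hi
    refine (h i hi).2.2.2.2.trans ?_
    cases sts.getD i none
    · exact le_rfl
    · exact le_rfl
  | succ m ih =>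
    intro i hi
    obtain ⟨h1, h2, h3, h4, _⟩ := h i hi
    rw [iter, getW_build _ _ _ (by rw [hlen]; exact hi), val_succ]
    refine (Nat.mod_le _ _).trans ?_
    exact Nat.add_le_add ((ih _ h1).trans (val_le h3)) ((ih _ h2).trans (val_le h4))

/-- the states -/
def sts : List (Option (Sd × Sd)) :=
  [none,
   some (⟨0, 0, 0⟩, ⟨0, 0, 0⟩), some (⟨0, 0, 0⟩, ⟨1, 0, 0⟩), some (⟨1, 0, 0⟩, ⟨0, 0, 0⟩),
   some (⟨0, 0, 0⟩, ⟨2, 0, 0⟩), some (⟨1, 0, 0⟩, ⟨1, 1, 0⟩), some (⟨1, 1, 0⟩, ⟨1, 0, 0⟩),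
   some (⟨2, 0, 0⟩, ⟨0, 0, 0⟩), some (⟨0, 0, 0⟩, ⟨3, 0, 0⟩), some (⟨1, 0, 0⟩, ⟨2, 1, 0⟩),
   some (⟨1, 1, 0⟩, ⟨2, 1, 1⟩), some (⟨2, 0, 0⟩, ⟨1, 1, 0⟩), some (⟨1, 1, 0⟩, ⟨2, 0, 0⟩),
   some (⟨2, 1, 1⟩, ⟨1, 1, 0⟩), some (⟨2, 1, 0⟩, ⟨1, 0, 0⟩), some (⟨3, 0, 0⟩, ⟨0, 0, 0⟩),
   some (⟨0, 0, 0⟩, ⟨4, 0, 0⟩), some (⟨1, 0, 0⟩, ⟨3, 1, 0⟩), some (⟨1, 1, 0⟩, ⟨3, 1, 1⟩),
   some (⟨2, 0, 0⟩, ⟨2, 2, 0⟩), some (⟨2, 1, 1⟩, ⟨2, 2, 1⟩), some (⟨2, 1, 0⟩, ⟨2, 1, 1⟩),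
   some (⟨3, 0, 0⟩, ⟨1, 1, 0⟩), some (⟨1, 1, 0⟩, ⟨3, 0, 0⟩), some (⟨2, 1, 1⟩, ⟨2, 1, 0⟩),
   some (⟨2, 2, 1⟩, ⟨2, 1, 1⟩), some (⟨3, 1, 1⟩, ⟨1, 1, 0⟩), some (⟨2, 2, 0⟩, ⟨2, 0, 0⟩),
   some (⟨3, 1, 0⟩, ⟨1, 0, 0⟩), some (⟨4, 0, 0⟩, ⟨0, 0, 0⟩), some (⟨1, 0, 0⟩, ⟨4, 1, 0⟩),
   some (⟨1, 1, 0⟩, ⟨4, 1, 1⟩), some (⟨2, 0, 0⟩, ⟨3, 2, 0⟩), some (⟨2, 1, 1⟩, ⟨3, 2, 1⟩),
   some (⟨2, 1, 0⟩, ⟨3, 2, 1⟩), some (⟨3, 0, 0⟩, ⟨2, 2, 0⟩), some (⟨2, 2, 1⟩, ⟨3, 2, 2⟩),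
   some (⟨3, 1, 1⟩, ⟨2, 2, 1⟩), some (⟨2, 2, 0⟩, ⟨3, 1, 1⟩), some (⟨3, 1, 0⟩, ⟨2, 1, 1⟩),
   some (⟨4, 0, 0⟩, ⟨1, 1, 0⟩), some (⟨1, 1, 0⟩, ⟨4, 0, 0⟩), some (⟨2, 1, 1⟩, ⟨3, 1, 0⟩),
   some (⟨2, 2, 1⟩, ⟨3, 1, 1⟩), some (⟨3, 1, 1⟩, ⟨2, 2, 0⟩), some (⟨3, 2, 2⟩, ⟨2, 2, 1⟩),
   some (⟨3, 2, 1⟩, ⟨2, 1, 1⟩), some (⟨4, 1, 1⟩, ⟨1, 1, 0⟩), some (⟨2, 2, 0⟩, ⟨3, 0, 0⟩),
   some (⟨3, 2, 1⟩, ⟨2, 1, 0⟩), some (⟨3, 2, 0⟩, ⟨2, 0, 0⟩), some (⟨4, 1, 0⟩, ⟨1, 0, 0⟩),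
   some (⟨2, 0, 0⟩, ⟨4, 2, 0⟩), some (⟨2, 1, 1⟩, ⟨4, 2, 1⟩), some (⟨2, 1, 0⟩, ⟨4, 2, 1⟩),
   some (⟨3, 0, 0⟩, ⟨3, 3, 0⟩), some (⟨2, 2, 1⟩, ⟨4, 2, 2⟩), some (⟨3, 1, 1⟩, ⟨3, 3, 1⟩),
   some (⟨2, 2, 0⟩, ⟨4, 2, 2⟩), some (⟨3, 1, 0⟩, ⟨3, 2, 1⟩), some (⟨4, 0, 0⟩, ⟨2, 2, 0⟩),
   some (⟨3, 2, 2⟩, ⟨3, 3, 2⟩), some (⟨3, 2, 1⟩, ⟨3, 2, 2⟩), some (⟨4, 1, 1⟩, ⟨2, 2, 1⟩),
   some (⟨2, 2, 0⟩, ⟨4, 1, 1⟩), some (⟨3, 2, 1⟩, ⟨3, 2, 1⟩), some (⟨3, 2, 0⟩, ⟨3, 1, 1⟩),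
   some (⟨4, 1, 0⟩, ⟨2, 1, 1⟩), some (⟨2, 1, 1⟩, ⟨4, 1, 0⟩), some (⟨2, 2, 1⟩, ⟨4, 1, 1⟩),
   some (⟨3, 1, 1⟩, ⟨3, 2, 0⟩), some (⟨3, 2, 2⟩, ⟨3, 2, 1⟩), some (⟨4, 1, 1⟩, ⟨2, 2, 0⟩),
   some (⟨3, 3, 2⟩, ⟨3, 2, 2⟩), some (⟨4, 2, 2⟩, ⟨2, 2, 1⟩), some (⟨3, 3, 1⟩, ⟨3, 1, 1⟩),
   some (⟨4, 2, 1⟩, ⟨2, 1, 1⟩), some (⟨2, 2, 0⟩, ⟨4, 0, 0⟩), some (⟨3, 2, 1⟩, ⟨3, 1, 0⟩),
   some (⟨4, 2, 2⟩, ⟨2, 2, 0⟩), some (⟨3, 3, 0⟩, ⟨3, 0, 0⟩), some (⟨4, 2, 1⟩, ⟨2, 1, 0⟩),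
   some (⟨4, 2, 0⟩, ⟨2, 0, 0⟩), some (⟨3, 0, 0⟩, ⟨4, 3, 0⟩), some (⟨3, 1, 1⟩, ⟨4, 3, 1⟩),
   some (⟨3, 1, 0⟩, ⟨4, 3, 1⟩), some (⟨4, 0, 0⟩, ⟨3, 3, 0⟩), some (⟨3, 2, 2⟩, ⟨4, 3, 2⟩),
   some (⟨3, 2, 1⟩, ⟨4, 3, 2⟩), some (⟨4, 1, 1⟩, ⟨3, 3, 1⟩), some (⟨3, 2, 0⟩, ⟨4, 2, 2⟩),
   some (⟨4, 1, 0⟩, ⟨3, 2, 1⟩), some (⟨3, 3, 2⟩, ⟨4, 3, 3⟩), some (⟨4, 2, 2⟩, ⟨3, 3, 2⟩),
   some (⟨3, 3, 1⟩, ⟨4, 2, 2⟩), some (⟨4, 2, 1⟩, ⟨3, 2, 2⟩), some (⟨3, 2, 1⟩, ⟨4, 2, 1⟩),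
   some (⟨4, 2, 2⟩, ⟨3, 3, 1⟩), some (⟨3, 3, 0⟩, ⟨4, 1, 1⟩), some (⟨4, 2, 1⟩, ⟨3, 2, 1⟩),
   some (⟨4, 2, 0⟩, ⟨3, 1, 1⟩), some (⟨3, 1, 1⟩, ⟨4, 2, 0⟩), some (⟨3, 2, 2⟩, ⟨4, 2, 1⟩),
   some (⟨4, 1, 1⟩, ⟨3, 3, 0⟩), some (⟨3, 3, 2⟩, ⟨4, 2, 2⟩), some (⟨4, 3, 3⟩, ⟨3, 3, 2⟩),
   some (⟨4, 3, 2⟩, ⟨3, 2, 2⟩), some (⟨3, 3, 1⟩, ⟨4, 1, 1⟩), some (⟨4, 3, 2⟩, ⟨3, 2, 1⟩),
   some (⟨4, 3, 1⟩, ⟨3, 1, 1⟩), some (⟨3, 2, 1⟩, ⟨4, 1, 0⟩), some (⟨4, 2, 2⟩, ⟨3, 2, 0⟩),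
   some (⟨3, 3, 0⟩, ⟨4, 0, 0⟩), some (⟨4, 3, 1⟩, ⟨3, 1, 0⟩), some (⟨4, 3, 0⟩, ⟨3, 0, 0⟩),
   some (⟨4, 0, 0⟩, ⟨4, 4, 0⟩), some (⟨4, 1, 1⟩, ⟨4, 4, 1⟩), some (⟨3, 2, 0⟩, ⟨4, 3, 2⟩),
   some (⟨4, 1, 0⟩, ⟨4, 3, 1⟩), some (⟨4, 2, 2⟩, ⟨4, 4, 2⟩), some (⟨3, 3, 1⟩, ⟨4, 3, 3⟩),
   some (⟨4, 2, 1⟩, ⟨4, 3, 2⟩), some (⟨3, 3, 0⟩, ⟨4, 2, 2⟩), some (⟨4, 2, 0⟩, ⟨4, 2, 2⟩),
   some (⟨4, 3, 3⟩, ⟨4, 4, 3⟩), some (⟨4, 3, 2⟩, ⟨4, 3, 3⟩), some (⟨4, 3, 2⟩, ⟨4, 3, 2⟩),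
   some (⟨4, 3, 1⟩, ⟨4, 2, 2⟩), some (⟨4, 2, 2⟩, ⟨4, 3, 1⟩), some (⟨4, 3, 1⟩, ⟨4, 2, 1⟩),
   some (⟨4, 3, 0⟩, ⟨4, 1, 1⟩), some (⟨4, 1, 1⟩, ⟨4, 3, 0⟩), some (⟨4, 2, 1⟩, ⟨4, 3, 1⟩),
   some (⟨4, 3, 3⟩, ⟨4, 3, 2⟩), some (⟨4, 4, 3⟩, ⟨4, 3, 3⟩), some (⟨4, 4, 2⟩, ⟨4, 2, 2⟩),
   some (⟨4, 3, 2⟩, ⟨4, 2, 1⟩), some (⟨4, 3, 3⟩, ⟨3, 3, 1⟩), some (⟨4, 4, 1⟩, ⟨4, 1, 1⟩),
   some (⟨4, 2, 2⟩, ⟨4, 2, 0⟩), some (⟨4, 2, 2⟩, ⟨3, 3, 0⟩), some (⟨4, 3, 1⟩, ⟨4, 1, 0⟩),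
   some (⟨4, 3, 2⟩, ⟨3, 2, 0⟩), some (⟨4, 4, 0⟩, ⟨4, 0, 0⟩), some (⟨4, 1, 0⟩, ⟨4, 4, 1⟩),
   some (⟨4, 2, 1⟩, ⟨4, 4, 2⟩), some (⟨3, 3, 0⟩, ⟨4, 3, 3⟩), some (⟨4, 2, 0⟩, ⟨4, 3, 2⟩),
   some (⟨4, 3, 2⟩, ⟨4, 4, 3⟩), some (⟨4, 3, 1⟩, ⟨4, 3, 3⟩), some (⟨4, 3, 1⟩, ⟨4, 3, 2⟩),
   some (⟨4, 3, 0⟩, ⟨4, 2, 2⟩), some (⟨4, 4, 3⟩, ⟨4, 4, 4⟩), some (⟨4, 4, 2⟩, ⟨4, 3, 3⟩),
   some (⟨4, 3, 3⟩, ⟨4, 4, 2⟩), some (⟨4, 4, 1⟩, ⟨4, 2, 2⟩), some (⟨4, 2, 2⟩, ⟨4, 4, 1⟩),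
   some (⟨4, 3, 2⟩, ⟨4, 3, 1⟩), some (⟨4, 4, 0⟩, ⟨4, 1, 1⟩), some (⟨4, 1, 1⟩, ⟨4, 4, 0⟩),
   some (⟨4, 4, 4⟩, ⟨4, 4, 3⟩), some (⟨4, 4, 3⟩, ⟨4, 3, 2⟩), some (⟨4, 3, 3⟩, ⟨4, 3, 1⟩),
   some (⟨4, 4, 2⟩, ⟨4, 2, 1⟩), some (⟨4, 2, 2⟩, ⟨4, 3, 0⟩), some (⟨4, 3, 2⟩, ⟨4, 2, 0⟩),
   some (⟨4, 3, 3⟩, ⟨3, 3, 0⟩), some (⟨4, 4, 1⟩, ⟨4, 1, 0⟩), some (⟨4, 2, 0⟩, ⟨4, 4, 2⟩),
   some (⟨4, 3, 1⟩, ⟨4, 4, 3⟩), some (⟨4, 3, 0⟩, ⟨4, 3, 3⟩), some (⟨4, 4, 2⟩, ⟨4, 4, 4⟩),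
   some (⟨4, 4, 1⟩, ⟨4, 3, 3⟩), some (⟨4, 3, 2⟩, ⟨4, 4, 2⟩), some (⟨4, 4, 0⟩, ⟨4, 2, 2⟩),
   some (⟨4, 4, 3⟩, ⟨4, 4, 3⟩), some (⟨4, 4, 2⟩, ⟨4, 3, 2⟩), some (⟨4, 3, 3⟩, ⟨4, 4, 1⟩),
   some (⟨4, 4, 1⟩, ⟨4, 2, 1⟩), some (⟨4, 2, 1⟩, ⟨4, 4, 1⟩), some (⟨4, 4, 4⟩, ⟨4, 4, 2⟩),
   some (⟨4, 4, 3⟩, ⟨4, 3, 1⟩), some (⟨4, 2, 2⟩, ⟨4, 4, 0⟩), some (⟨4, 3, 3⟩, ⟨4, 3, 0⟩),
   some (⟨4, 4, 2⟩, ⟨4, 2, 0⟩), some (⟨4, 3, 0⟩, ⟨4, 4, 3⟩), some (⟨4, 4, 1⟩, ⟨4, 4, 4⟩),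
   some (⟨4, 4, 0⟩, ⟨4, 3, 3⟩), some (⟨4, 4, 2⟩, ⟨4, 4, 3⟩), some (⟨4, 4, 1⟩, ⟨4, 3, 2⟩),
   some (⟨4, 4, 3⟩, ⟨4, 4, 2⟩), some (⟨4, 4, 2⟩, ⟨4, 3, 1⟩), some (⟨4, 3, 1⟩, ⟨4, 4, 2⟩),
   some (⟨4, 4, 4⟩, ⟨4, 4, 1⟩), some (⟨4, 3, 2⟩, ⟨4, 4, 1⟩), some (⟨4, 3, 3⟩, ⟨4, 4, 0⟩),
   some (⟨4, 4, 3⟩, ⟨4, 3, 0⟩), some (⟨4, 4, 0⟩, ⟨4, 4, 4⟩), some (⟨4, 4, 1⟩, ⟨4, 4, 3⟩),
   some (⟨4, 4, 2⟩, ⟨4, 4, 2⟩), some (⟨4, 4, 3⟩, ⟨4, 4, 1⟩), some (⟨4, 4, 4⟩, ⟨4, 4, 0⟩)]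

/-- the transitions -/
def trs : List (ℕ × ℕ) :=
  [(0, 0), (2, 3), (4, 5), (6, 7), (8, 9), (10, 11), (12, 13), (14, 15),
   (16, 17), (18, 19), (18, 20), (21, 22), (23, 24), (25, 26), (27, 26), (28, 29),
   (16, 30), (31, 32), (31, 33), (34, 35), (36, 37), (38, 37), (39, 40), (41, 42),
   (43, 44), (43, 45), (46, 47), (48, 49), (50, 47), (51, 29), (31, 52), (31, 53),
   (54, 55), (56, 57), (58, 57), (59, 60), (56, 61), (62, 63), (64, 65), (66, 63),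
   (67, 40), (41, 68), (69, 70), (69, 71), (65, 72), (73, 74), (75, 74), (76, 47),
   (77, 78), (75, 79), (80, 81), (82, 47), (54, 83), (56, 84), (58, 84), (85, 86),
   (56, 87), (88, 89), (58, 88), (90, 89), (91, 60), (92, 93), (94, 93), (95, 63),
   (64, 96), (94, 97), (98, 99), (100, 63), (69, 101), (69, 102), (96, 103), (104, 97),
   (99, 72), (104, 105), (106, 74), (107, 108), (109, 74), (77, 110), (107, 111), (108, 79),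
   (112, 113), (109, 79), (114, 81), (85, 115), (88, 116), (117, 116), (118, 86), (92, 119),
   (120, 119), (121, 89), (122, 121), (123, 89), (92, 124), (125, 93), (94, 126), (127, 93),
   (94, 128), (126, 97), (98, 129), (127, 97), (130, 99), (96, 131), (104, 128), (132, 103),
   (104, 133), (134, 105), (135, 105), (107, 136), (135, 137), (138, 108), (107, 139), (136, 140),
   (112, 141), (138, 142), (143, 113), (144, 115), (145, 116), (146, 145), (147, 116), (148, 119),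
   (120, 148), (149, 119), (122, 150), (151, 121), (152, 124), (153, 124), (153, 154), (155, 126),
   (126, 156), (155, 157), (158, 129), (132, 159), (150, 156), (134, 154), (134, 160), (135, 161),
   (135, 162), (161, 137), (138, 163), (136, 164), (157, 140), (138, 165), (163, 166), (143, 167),
   (168, 116), (169, 119), (146, 169), (170, 145), (171, 124), (172, 148), (172, 173), (174, 150),
   (152, 0), (153, 175), (175, 154), (155, 176), (173, 156), (176, 177), (158, 178), (179, 159),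
   (0, 160), (134, 180), (161, 177), (135, 181), (157, 182), (163, 183), (181, 166), (138, 184),
   (185, 145), (186, 148), (187, 169), (171, 152), (172, 188), (188, 154), (174, 189), (152, 160),
   (153, 190), (190, 177), (155, 191), (192, 156), (160, 180), (161, 193), (194, 182), (181, 195),
   (163, 196), (197, 169), (186, 171), (187, 198), (171, 175), (172, 199), (175, 180), (176, 200),
   (198, 173), (180, 193), (199, 177), (200, 195), (181, 201), (197, 186), (186, 188), (188, 190),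
   (190, 193), (193, 201)]

/-- initial values -/
def X0 : ℕ := 0x1000000000001000000000001000000000001000000000001000000000001000000000001000000000001000000000001000000000001000000000001000000000001000000000001000000000001000000000001000000000001000000000001000000000001000000000001000000000001000000000001000000000001000000000001000000000001000000000001000000000001000000000001000000000001000000000001000000000001000000000001000000000001000000000001000000000001000000000001000000000001000000000001000000000001000000000001000000000001000000000001000000000001000000000001000000000001000000000001000000000001000000000001000000000001000000000001000000000001000000000001000000000001000000000001000000000001000000000001000000000001000000000001000000000001000000000001000000000001000000000001000000000001000000000001000000000001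00000000000100000000000100000000000100000000000100000000000100000000000100000000000100000000000100000000000100000000000100000000000100000000000100000000000100000000000100000000000100000000000100000000000100000000000100000000000100000000000100000000000100000000000100000000000100000000000100000000000100000000000100000000000100000000000100000000000100000000000100000000000100000000000100000000000100000000000100000000000100000000000100000000000100000000000100000000000100000000000100000000000100000000000100000000000100000000000100000000000100000000000100000000000100000000000100000000000100000000000100000000000100000000000100000000000100000000000100000000000100000000000100000000000100000000000100000000000100000000000100000000000100000000000100000000000100000000000100000000000100000000000100000000000100000000000100000000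0001000000000001000000000001000000000001000000000001000000000001000000000001000000000001000000000001000000000001000000000001000000000001000000000001000000000001000000000001000000000001000000000001000000000001000000000001000000000001000000000001000000000001000000000001000000000001000000000001000000000001000000000001000000000001000000000001000000000001000000000001000000000001000000000001000000000001000000000001000000000001000000000001000000000001000000000001000000000001000000000001000000000001000000000001000000000001000000000001000000000001000000000001000000000001000000000001000000000001000000000001000000000001000000000001000000000001000000000001000000000001000000000001000000000001000000000001000000000001000000000001000000000001000000000001000000000001000000000001000000000001000000000001000000000001000000000001000000000000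

theorem sound : Sound 4 sts trs X0 := by
  unfold Sound
  decide +kernel

theorem cnt_ge : 9704462 ≤ cnt 4 40 (⟨0, 0, 0⟩, ⟨0, 0, 0⟩) := by
  have h1 := getW_iter_le (by decide +kernel) sound 40 1 (by decide +kernel)
  have h2 : getW (iter trs X0 40) 1 = 9704462 := by decide +kernel
  rw [h2] at h1
  exact h1

end Pool.Agent.Work.MP_463270_co_h24
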