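import Pool.Agent.Work.MP_463270_co_h24.Data

set_option autoImplicit false

/-!
Kernel evaluation of the bounds, part 0.
-/

namespace Pool.Agent.Work.MP_463270_co_h24

theorem t0 : tot 40 5 781 LN 3 0 R0 = 374820 := by decide +kernel

theorem t1 : tot 40 5 781 LN 3 50 R1 = 363315 := by decide +kernel

theorem t2 : tot 40 5 781 LN 3 100 R2 = 354313 := by decide +kernel

theorem t3 : tot 40 5 781 LN 3 150 R3 = 345242 := by decide +kernel

end Pool.Agent.Work.MP_463270_co_h24
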