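import Pool.Agent.Work.MP_463270_co_h24.Data

set_option autoImplicit false

/-!
Kernel evaluation of the bounds, part 1.
-/

namespace Pool.Agent.Work.MP_463270_co_h24

theorem t4 : tot 40 5 781 LN 3 200 R4 = 327354 := by decide +kernel

theorem t5 : tot 40 5 781 LN 3 250 R5 = 323693 := by decide +kernel

theorem t6 : tot 40 5 781 LN 3 300 R6 = 325887 := by decide +kernel

theorem t7 : tot 40 5 781 LN 3 350 R7 = 307694 := by decide +kernel

end Pool.Agent.Work.MP_463270_co_h24
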