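import Pool.Agent.Work.MP_463270_co_h24.Data

set_option autoImplicit false

/-!
Kernel evaluation of the bounds, part 2.
-/

namespace Pool.Agent.Work.MP_463270_co_h24

theorem t8 : tot 40 5 781 LN 3 400 R8 = 301134 := by decide +kernel

theorem t9 : tot 40 5 781 LN 3 450 R9 = 293691 := by decide +kernel

theorem t10 : tot 40 5 781 LN 3 500 R10 = 296156 := by decide +kernel

theorem t11 : tot 40 5 781 LN 3 550 R11 = 284748 := by decide +kernel

end Pool.Agent.Work.MP_463270_co_h24
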