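import Pool.Agent.Work.MP_463270_co_h24.Data

set_option autoImplicit false

/-!
Kernel evaluation of the bounds, part 3.
-/

namespace Pool.Agent.Work.MP_463270_co_h24

theorem t12 : tot 40 5 781 LN 3 600 R12 = 279335 := by decide +kernel

theorem t13 : tot 40 5 781 LN 3 650 R13 = 264517 := by decide +kernel

theorem t14 : tot 40 5 781 LN 3 700 R14 = 242590 := by decide +kernel

theorem t15 : tot 40 5 781 LN 3 750 R15 = 155073 := by decide +kernel

end Pool.Agent.Work.MP_463270_co_h24
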