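import Pool.Agent.Work.MP_463270_co_h24.Bridge
import Pool.Agent.Work.MP_463270_co_h24.Sum0
import Pool.Agent.Work.MP_463270_co_h24.Sum1
import Pool.Agent.Work.MP_463270_co_h24.Sum2
import Pool.Agent.Work.MP_463270_co_h24.Sum3

set_option autoImplicit false

/-!
The total bound for the counterexample.
-/

namespace Pool.Agent.Work.MP_463270_co_h24

theorem tot_append (n f N LN k : ℕ) (a b : List ℕ) : ∀ i,
    tot n f N LN k i (a ++ b) = tot n f N LN k i a + tot n f N LN k (i + a.length) b := by
  induction a with
  | nil => intro i; simp [tot]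
  | cons x t ih =>
    intro i
    rw [List.cons_append, tot, tot, ih, List.length_cons, Nat.add_assoc i 1 t.length,
      Nat.add_comm 1 t.length, Nat.add_assoc (dec n f N LN k i 64 x 0 [])]

theorem tot_eq_sum (n f N LN k : ℕ) (l : List ℕ) : ∀ i,
    tot n f N LN k i l = ∑ j ∈ Finset.range l.length, one n f N LN k (i + j) (l.getD j 0) := by
  induction l with
  | nil => intro i; simp [tot]
  | cons x t ih =>
    intro i
    rw [tot, ih, List.length_cons, Finset.sum_range_succ']
    rw [List.getD_cons_zero, add_zero, add_comm]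
    congr 1
    refine Finset.sum_congr rfl fun j _ => ?_
    rw [List.getD_cons_succ, show i + 1 + j = i + (j + 1) by ring]

/-- all certificates -/
def Rall : List ℕ := R0 ++ (R1 ++ (R2 ++ (R3 ++ (R4 ++ (R5 ++ (R6 ++ (R7 ++ (R8 ++ (R9 ++ (R10 ++ (R11 ++ (R12 ++ (R13 ++ (R14 ++ (R15)))))))))))))))

/-- the certificate of an index -/
def RR (i : ℕ) : ℕ := Rall.getD i 0

theorem sum_eq : ∑ i ∈ Finset.range 781, one 40 5 781 LN 3 i (RR i) = 4839562 := by
  have h1 := tot_eq_sum 40 5 781 LN 3 Rall 0
  have h2 : Rall.length = 781 := by decide +kernel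
  rw [h2] at h1
  simp only [zero_add] at h1
  have h3 : ∑ i ∈ Finset.range 781, one 40 5 781 LN 3 i (RR i) = tot 40 5 781 LN 3 0 Rall := h1.symm
  rw [h3]
  unfold Rall
  rw [tot_append, t0, show 0 + R0.length = 50 from rfl]
  rw [tot_append, t1, show 50 + R1.length = 100 from rfl]
  rw [tot_append, t2, show 100 + R2.length = 150 from rfl]
  rw [tot_append, t3, show 150 + R3.length = 200 from rfl]
  rw [tot_append, t4, show 200 + R4.length = 250 from rfl]
  rw [tot_append, t5, show 250 + R5.length = 300 from rfl]
  rw [tot_append, t6, show 300 + R6.length = 350 from rfl]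
  rw [tot_append, t7, show 350 + R7.length = 400 from rfl]
  rw [tot_append, t8, show 400 + R8.length = 450 from rfl]
  rw [tot_append, t9, show 450 + R9.length = 500 from rfl]
  rw [tot_append, t10, show 500 + R10.length = 550 from rfl]
  rw [tot_append, t11, show 550 + R11.length = 600 from rfl]
  rw [tot_append, t12, show 600 + R12.length = 650 from rfl]
  rw [tot_append, t13, show 650 + R13.length = 700 from rfl]
  rw [tot_append, t14, show 700 + R14.length = 750 from rfl]
  rw [t15]

theorem gen_ok : gen3 pts = true := by decide +kernel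

theorem rows_ok : rows 40 781 LN pts 0 pts cov = true := by decide +kernel

end Pool.Agent.Work.MP_463270_co_h24
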