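import Mathlib
import Pool.Agent.Work.MP_463270_co_h24.AltSide
import Pool.Agent.Work.MP_463270_co_h24.AutoTab
import Pool.Agent.Work.MP_463270_co_h24.Total

set_option autoImplicit false

/-!
The counterexample: 40 points of the plane, rank 37, `k = 3`.
-/

namespace Pool.Agent.Work.MP_463270_co_h24

open Pool.Agent.Work.MP_463270_co

theorem len_pts : pts.length = 40 := by decide +kernel

theorem three_le : 3 ≤ 40 := by norm_num

theorem cex_hasRank :
    (planar (vec 40 pts) (generic_vec len_pts gen_ok) three_le).HasRank 37 :=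
  planar_hasRank' _ _ _ (by norm_num)

theorem cex_uniform (X : Fin 40 → SignType)
    (hX : X ∈ (planar (vec 40 pts) (generic_vec len_pts gen_ok) three_le).circuits) :
    (Finset.univ.filter fun e => X e ≠ 0).card = 38 := planar_uniform _ _ _ hX

theorem alt_bound : (alternating 37 40).neighborlyCount 3 +
    cnt 4 40 (⟨0, 0, 0⟩, ⟨0, 0, 0⟩) ≤ 2 ^ 40 :=
  alternating_count' (n := 40) (k := 3) (c := 4) (r := 37) three_le (by norm_num) (by norm_num)

theorem cex_bound :
    2 ^ 40 ≤ (planar (vec 40 pts) (generic_vec len_pts gen_ok) three_le).neighborlyCount 3 +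
      2 * ∑ i ∈ Finset.range 781, one 40 5 781 LN 3 i (RR i) :=
  planar_count (n := 40) (N := 781) (LN := LN) (k := 3) (f := 5) (by norm_num) three_le
    len_pts gen_ok rows_ok RR

theorem arith (P a b c t : ℕ) (h0 : t = 4839562) (h1 : P ≤ a + 2 * t) (h2 : b + c ≤ P)
    (h4 : 9704462 ≤ c) : b + 25338 ≤ a := by
  omega

theorem final : (alternating 37 40).neighborlyCount 3 + 25338 ≤
    (planar (vec 40 pts) (generic_vec len_pts gen_ok) three_le).neighborlyCount 3 :=
  arith _ _ _ _ _ sum_eq cex_bound alt_bound cnt_ge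

end Pool.Agent.Work.MP_463270_co_h24
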